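import Pool.Agent.Lib.MP_8dcfde_an.Omit

set_option autoImplicit false

namespace Pool.Agent.Lib.MP_8dcfde_an

open MeasureTheory Set Filter

lemma cont_coord (i : Fin 3) : Continuous (fun x : E => x i) := by fun_prop

lemma isOpen_Om : IsOpen Om := by
  have h0 : IsOpen {x : E | |x 0| < 1/4} := isOpen_lt (cont_coord 0).abs continuous_const
  have h1 : IsOpen {x : E | |x 1| < 1/4} := isOpen_lt (cont_coord 1).abs continuous_const
  have h2 : IsOpen {x : E | 0 < x 2} := isOpen_lt continuous_const (cont_coord 2)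
  have h3 : IsOpen {x : E | x 2 < 1} := isOpen_lt (cont_coord 2) continuous_const
  exact h0.inter (h1.inter (h2.inter h3))

lemma convex_Om : Convex ℝ Om := by
  intro x hx y hy a b ha hb hab
  obtain ⟨hx0, hx1, hx2, hx3⟩ := hx
  obtain ⟨hy0, hy1, hy2, hy3⟩ := hy
  have hb' : b = 1 - a := by linarith
  have ha1 : a ≤ 1 := by linarith
  rw [abs_lt] at hx0 hx1 hy0 hy1
  refine ⟨?_, ?_, ?_, ?_⟩
  · show |(a • x + b • y) 0| < 1/4
    simp only [PiLp.add_apply, PiLp.smul_apply, smul_eq_mul]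
    rw [abs_lt]
    rcases eq_or_lt_of_le ha with h | h
    · subst h; simp at hb'; subst hb'; constructor <;> linarith
    · constructor <;> nlinarith
  · show |(a • x + b • y) 1| < 1/4
    simp only [PiLp.add_apply, PiLp.smul_apply, smul_eq_mul]
    rw [abs_lt]
    rcases eq_or_lt_of_le ha with h | h
    · subst h; simp at hb'; subst hb'; constructor <;> linarith
    · constructor <;> nlinarith
  · show 0 < (a • x + b • y) 2
    simp only [PiLp.add_apply, PiLp.smul_apply, smul_eq_mul]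
    rcases eq_or_lt_of_le ha with h | h
    · subst h; simp at hb'; subst hb'; linarith
    · nlinarith
  · show (a • x + b • y) 2 < 1
    simp only [PiLp.add_apply, PiLp.smul_apply, smul_eq_mul]
    rcases eq_or_lt_of_le ha with h | h
    · subst h; simp at hb'; subst hb'; linarith
    · nlinarith

lemma isConnected_Om (hO : OmitSpec) : IsConnected Om :=
  ⟨⟨_, hO.2.1⟩, convex_Om.isPreconnected⟩

lemma Om_subset_ball : Om ⊆ Metric.ball (0 : E) 2 := by
  intro x hx
  obtain ⟨h0, h1, h2, h3⟩ := hx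
  rw [mem_ball_zero_iff, EuclideanSpace.norm_eq]
  rw [Real.sqrt_lt' (by norm_num)]
  simp only [Fin.sum_univ_three, Real.norm_eq_abs, sq_abs]
  rw [abs_lt] at h0 h1
  nlinarith

lemma vol_Om_lt_top : volume Om < ⊤ :=
  lt_of_le_of_lt (measure_mono Om_subset_ball) measure_ball_lt_top

lemma rr_tendsto : Tendsto rr atTop (nhds 0) := by
  unfold rr
  have h1 : Tendsto (fun j : ℕ => 2 ^ (j + 2)) atTop (atTop : Filter ℕ) := by
    have := tendsto_pow_atTop_atTop_of_one_lt (r := 2) (by norm_num : 1 < 2)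
    exact this.comp (tendsto_add_atTop_nat 2)
  exact (tendsto_pow_atTop_nhds_zero_of_lt_one (by norm_num) (by norm_num)).comp h1

lemma not_isOpen_image (hO : OmitSpec) : ¬ IsOpen (ff '' Om) := by
  intro h
  have h0 : (0 : E) ∈ ff '' Om := ⟨_, hO.2.1, hO.2.2⟩
  have h1 : Tendsto (fun j : ℕ => (!₂[rr j, 0, 0] : E)) atTop (nhds 0) := by
    have h2 : Continuous (fun r : ℝ => (!₂[r, 0, 0] : E)) := by fun_prop
    have h3 := (h2.tendsto 0).comp rr_tendsto
    have h4 : (!₂[(0:ℝ), 0, 0] : E) = 0 := by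
      ext i; fin_cases i <;> simp
    rw [h4] at h3
    exact h3
  have h5 := h1.eventually (h.mem_nhds h0)
  obtain ⟨j, hj⟩ := h5.exists
  obtain ⟨x, hx, hxj⟩ := hj
  exact hO.1 j x hx hxj

/-- The final assembly. -/
theorem final (hO : OmitSpec) (hL : LipSpec) (hJ : JacSpec) (hI : IntSpec) (hWk : WeakSpec) :
    ¬ (∀ (n : ℕ), 3 ≤ n →
    ∀ (Ω : Set (EuclideanSpace ℝ (Fin n))), IsOpen Ω → IsConnected Ω →
    ∀ (f : EuclideanSpace ℝ (Fin n) → EuclideanSpace ℝ (Fin n))
      (Df : EuclideanSpace ℝ (Fin n) →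
        (EuclideanSpace ℝ (Fin n) →L[ℝ] EuclideanSpace ℝ (Fin n))),
      ContinuousOn f Ω →
      MeasureTheory.MemLp f ((n : ℕ) : ENNReal) (MeasureTheory.volume.restrict Ω) →
      MeasureTheory.MemLp Df ((n : ℕ) : ENNReal) (MeasureTheory.volume.restrict Ω) →
      (∀ φ : EuclideanSpace ℝ (Fin n) → ℝ,
          ContDiff ℝ ((⊤ : ℕ∞) : WithTop ℕ∞) φ → HasCompactSupport φ → tsupport φ ⊆ Ω →
          ∀ v : EuclideanSpace ℝ (Fin n),
            ∫ x in Ω, (fderiv ℝ φ x v) • f x = - ∫ x in Ω, φ x • Df x v) →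
      (∀ᵐ x ∂(MeasureTheory.volume.restrict Ω),
          0 ≤ LinearMap.det (Df x).toLinearMap ∧
          (LinearMap.det (Df x).toLinearMap = 0 → Df x = 0)) →
      MeasureTheory.MemLp
          (fun x => if 0 < LinearMap.det (Df x).toLinearMap
            then ‖Df x‖ ^ n / LinearMap.det (Df x).toLinearMap else (1 : ℝ))
          ((n - 1 : ℕ) : ENNReal) (MeasureTheory.volume.restrict Ω) →
      (¬ ∃ c : EuclideanSpace ℝ (Fin n), ∀ x ∈ Ω, f x = c) →
      ∀ U : Set (EuclideanSpace ℝ (Fin n)), U ⊆ Ω → IsOpen U → IsOpen (f '' U)) := by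
  intro h
  have hfin : IsFiniteMeasure (volume.restrict Om) := ⟨by
    rw [Measure.restrict_apply_univ]; exact vol_Om_lt_top⟩
  have hmeasOm : MeasurableSet Om := isOpen_Om.measurableSet
  have hcont : ContinuousOn ff Om := hL.continuousOn
  have hbd : ∀ x ∈ Om, ‖ff x‖ ≤ 120 := by
    intro x hx
    have h1 := hL.dist_le_mul x hx _ hO.2.1
    rw [hO.2.2, dist_zero_right] at h1
    have h2 : dist x (!₂[0, 0, 1/2] : E) ≤ 4 := by
      have h3 := Om_subset_ball hx
      have h4 := Om_subset_ball hO.2.1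
      rw [Metric.mem_ball] at h3 h4
      calc dist x (!₂[0, 0, 1/2] : E) ≤ dist x 0 + dist 0 (!₂[0, 0, 1/2] : E) := dist_triangle _ _ _
        _ ≤ 4 := by rw [dist_comm 0]; linarith
    have h5 : ((30 : NNReal) : ℝ) = 30 := by norm_num
    rw [h5] at h1
    linarith
  have hdbd : ∀ x ∈ Om, ‖fderiv ℝ ff x‖ ≤ 30 := by
    intro x hx
    have h1 := norm_fderiv_le_of_lipschitzOn ℝ (isOpen_Om.mem_nhds hx) hL
    simpa using h1
  have hmf : AEStronglyMeasurable ff (volume.restrict Om) := hcont.aestronglyMeasurable hmeasOm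
  have hmd : Measurable (fderiv ℝ ff) := measurable_fderiv ℝ ff
  have hmem1 : MemLp ff ((3 : ℕ) : ENNReal) (volume.restrict Om) := by
    apply MemLp.of_bound hmf 120
    filter_upwards [ae_restrict_mem hmeasOm] with x hx using hbd x hx
  have hmem2 : MemLp (fderiv ℝ ff) ((3 : ℕ) : ENNReal) (volume.restrict Om) := by
    apply MemLp.of_bound hmd.aestronglyMeasurable 30
    filter_upwards [ae_restrict_mem hmeasOm] with x hx using hdbd x hx
  have hmdet : Measurable (fun x : E => LinearMap.det (fderiv ℝ ff x).toLinearMap) := by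
    have h1 : Continuous (fun A : E →L[ℝ] E => LinearMap.det A.toLinearMap) := by
      exact ContinuousLinearMap.continuous_det
    exact h1.measurable.comp hmd
  have hmem3 : MemLp (fun x => if 0 < LinearMap.det (fderiv ℝ ff x).toLinearMap
            then ‖fderiv ℝ ff x‖ ^ 3 / LinearMap.det (fderiv ℝ ff x).toLinearMap else (1 : ℝ))
          ((3 - 1 : ℕ) : ENNReal) (volume.restrict Om) := by
    have h2 : ((3 - 1 : ℕ) : ENNReal) = 2 := by norm_num
    rw [h2]
    have h3 : MemLp (fun x : E => 27000 * (mm x * max (dd x) (lam x))⁻¹) 2 (volume.restrict Om) :=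
      hI.const_mul 27000
    refine h3.mono' ?_ ?_
    · apply Measurable.aestronglyMeasurable
      apply Measurable.ite
      · exact measurableSet_lt measurable_const hmdet
      · exact (hmd.norm.pow_const 3).div hmdet
      · exact measurable_const
    · filter_upwards [hJ, ae_restrict_mem hmeasOm] with x hx hxOm
      obtain ⟨-, hpos, hdet⟩ := hx
      have h4 : 0 < LinearMap.det (fderiv ℝ ff x).toLinearMap := by rw [hdet]; exact hpos
      rw [if_pos h4, hdet, Real.norm_of_nonneg (by positivity), div_eq_mul_inv]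
      apply mul_le_mul_of_nonneg_right _ (by positivity)
      calc ‖fderiv ℝ ff x‖ ^ 3 ≤ 30 ^ 3 := pow_le_pow_left₀ (norm_nonneg _) (hdbd x hxOm) 3
        _ = 27000 := by norm_num
  refine not_isOpen_image hO (h 3 le_rfl Om isOpen_Om (isConnected_Om hO) ff (fderiv ℝ ff) hcont hmem1
    hmem2 (hWk Om isOpen_Om ff 30 hL) ?_ hmem3 ?_ Om subset_rfl isOpen_Om)
  · filter_upwards [hJ] with x hx
    obtain ⟨-, hpos, hdet⟩ := hx
    rw [hdet]
    exact ⟨hpos.le, fun h => absurd h hpos.ne'⟩
  · rintro ⟨c, hc⟩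
    have h1 := hc _ hO.2.1
    have h6 : (!₂[1/8, 0, 1/2] : E) ∈ Om := by
      refine ⟨?_, ?_, ?_, ?_⟩
      · show |(1/8:ℝ)| < 1/4
        rw [abs_of_pos (by norm_num)]; norm_num
      · show |(0:ℝ)| < 1/4
        rw [abs_zero]; norm_num
      · show (0:ℝ) < 1/2
        norm_num
      · show (1/2:ℝ) < 1
        norm_num
    have h2 := hc _ h6
    rw [hO.2.2] at h1
    rw [← h1] at h2
    have h3 := congrArg (fun y : E => y 0) h2
    simp [ff] at h3

end Pool.Agent.Lib.MP_8dcfde_an
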