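import Pool.Agent.Lib.MP_8dcfde_an.Spec

/-!
# `1 / (mm * max dd lam)` is square integrable on `Om`
-/

set_option autoImplicit false

namespace Pool.Agent.Lib.MP_8dcfde_an

open MeasureTheory Set
open scoped ENNReal

private lemma int_coord_cont (i : Fin 3) : Continuous fun x : E => x i :=
  (EuclideanSpace.proj (𝕜 := ℝ) i).continuous

/-- the boxes -/
private def Bx (a s : ℝ) : Set E := {x | |x 0 - a| ≤ s ∧ |x 1| ≤ s ∧ 0 < x 2 ∧ x 2 < 1}

private lemma Bx_meas (a s : ℝ) : MeasurableSet (Bx a s) := by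
  have h0 := int_coord_cont 0
  have h1 := int_coord_cont 1
  have h2 := int_coord_cont 2
  refine MeasurableSet.inter ?_ (MeasurableSet.inter ?_ (MeasurableSet.inter ?_ ?_))
  · exact (isClosed_le (h0.sub continuous_const).abs continuous_const).measurableSet
  · exact (isClosed_le h1.abs continuous_const).measurableSet
  · exact (isOpen_lt continuous_const h2).measurableSet
  · exact (isOpen_lt h2 continuous_const).measurableSet

private lemma Bx_vol (a s : ℝ) (hs : 0 ≤ s) : volume (Bx a s) ≤ ENNReal.ofReal (4 * s ^ 2) := by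
  have h := PiLp.volume_preserving_ofLp (Fin 3)
  have hsub : Bx a s ⊆ (@WithLp.ofLp 2 (Fin 3 → ℝ)) ⁻¹'
      (Icc (![a - s, -s, 0] : Fin 3 → ℝ) ![a + s, s, 1]) := by
    intro x hx
    obtain ⟨h0, h1, h2, h3⟩ := hx
    rw [abs_le] at h0 h1
    rw [mem_preimage, mem_Icc]
    constructor
    · intro i
      fin_cases i
      · show a - s ≤ x 0
        linarith [h0.1]
      · show -s ≤ x 1
        exact h1.1
      · show (0 : ℝ) ≤ x 2
        exact h2.le
    · intro i
      fin_cases i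
      · show x 0 ≤ a + s
        linarith [h0.2]
      · show x 1 ≤ s
        exact h1.2
      · show x 2 ≤ (1 : ℝ)
        exact h3.le
  refine (measure_mono hsub).trans ?_
  rw [h.measure_preimage measurableSet_Icc.nullMeasurableSet, Real.volume_Icc_pi,
    Fin.prod_univ_three]
  have e0 : (![a + s, s, 1] : Fin 3 → ℝ) 0 - (![a - s, -s, 0] : Fin 3 → ℝ) 0 = 2 * s := by
    simp; ring
  have e1 : (![a + s, s, 1] : Fin 3 → ℝ) 1 - (![a - s, -s, 0] : Fin 3 → ℝ) 1 = 2 * s := by
    simp; ring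
  have e2 : (![a + s, s, 1] : Fin 3 → ℝ) 2 - (![a - s, -s, 0] : Fin 3 → ℝ) 2 = 1 := by
    simp
  rw [e0, e1, e2, ← ENNReal.ofReal_mul (by positivity), ← ENNReal.ofReal_mul (by positivity)]
  apply ENNReal.ofReal_le_ofReal
  nlinarith

private lemma rr_pos (j : ℕ) : 0 < rr j := by unfold rr; positivity

/-- coefficients near the origin -/
private noncomputable def cA (k : ℕ) : ℝ := 256 * 4 ^ k / ((k : ℝ) + 1) ^ 2

/-- coefficients near `rr j` -/
private noncomputable def cB (j i : ℕ) : ℝ := 4 / 4 ^ (j + 1) * (4 ^ (i + 1) / rr j ^ 2)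

private lemma cA_nonneg (k : ℕ) : 0 ≤ cA k := by unfold cA; positivity

private lemma cB_nonneg (j i : ℕ) : 0 ≤ cB j i := by unfold cB; positivity

private noncomputable def GA (x : E) : ℝ≥0∞ :=
  ∑' k : ℕ, (Bx 0 ((1 / 2) ^ k)).indicator (fun _ => ENNReal.ofReal (cA k)) x

private noncomputable def GB (x : E) : ℝ≥0∞ :=
  ∑' j : ℕ, ∑ i ∈ Finset.range (2 ^ (j + 2) + 2),
    (Bx (rr j) ((1 / 2) ^ i * rr j)).indicator (fun _ => ENNReal.ofReal (cB j i)) x

private lemma GA_meas : Measurable GA := by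
  unfold GA
  exact Measurable.tsum fun k => measurable_const.indicator (Bx_meas _ _)

private lemma GB_meas : Measurable GB := by
  unfold GB
  refine Measurable.tsum fun j => ?_
  exact Finset.measurable_sum _ fun i _ => measurable_const.indicator (Bx_meas _ _)

private lemma int_ind (a s c : ℝ) (hs : 0 ≤ s) (hc : 0 ≤ c) :
    ∫⁻ x, (Bx a s).indicator (fun _ => ENNReal.ofReal c) x ≤ ENNReal.ofReal (c * (4 * s ^ 2)) := by
  rw [lintegral_indicator_const (Bx_meas a s), ENNReal.ofReal_mul hc]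
  exact mul_le_mul_right (Bx_vol a s hs) _

private lemma GA_int : ∫⁻ x, GA x < ⊤ := by
  unfold GA
  rw [lintegral_tsum fun k => (measurable_const.indicator (Bx_meas _ _)).aemeasurable]
  have hle : ∑' k : ℕ, ∫⁻ x, (Bx 0 ((1 / 2) ^ k)).indicator (fun _ => ENNReal.ofReal (cA k)) x ≤
      ∑' k : ℕ, ENNReal.ofReal (1024 * (1 / ((k : ℝ) + 1) ^ 2)) := by
    refine ENNReal.tsum_le_tsum fun k => ?_
    refine (int_ind 0 _ _ (by positivity) (cA_nonneg k)).trans (le_of_eq ?_)
    congr 1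
    unfold cA
    have h4 : ((1 / 2 : ℝ) ^ k) ^ 2 = 1 / 4 ^ k := by
      rw [← pow_mul, mul_comm k 2, pow_mul, ← one_div_pow]; norm_num
    rw [h4]
    field_simp
    norm_num
  refine lt_of_le_of_lt hle ?_
  have hsum : Summable fun k : ℕ => 1024 * (1 / ((k : ℝ) + 1) ^ 2) := by
    refine Summable.mul_left _ ?_
    have := (summable_nat_add_iff 1).2 (Real.summable_one_div_nat_pow.2 (by norm_num : 1 < 2))
    simpa using this
  exact hsum.tsum_ofReal_lt_top

private lemma GB_int : ∫⁻ x, GB x < ⊤ := by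
  unfold GB
  rw [lintegral_tsum fun j => (Finset.measurable_sum _ fun i _ =>
    measurable_const.indicator (Bx_meas _ _)).aemeasurable]
  have hle : ∑' j : ℕ, ∫⁻ x, ∑ i ∈ Finset.range (2 ^ (j + 2) + 2),
      (Bx (rr j) ((1 / 2) ^ i * rr j)).indicator (fun _ => ENNReal.ofReal (cB j i)) x ≤
      ∑' j : ℕ, ENNReal.ofReal (96 * (1 / 2) ^ j) := by
    refine ENNReal.tsum_le_tsum fun j => ?_
    rw [lintegral_finsetSum _ fun i _ => measurable_const.indicator (Bx_meas _ _)]
    have h1 : ∑ i ∈ Finset.range (2 ^ (j + 2) + 2), ∫⁻ x,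
        (Bx (rr j) ((1 / 2) ^ i * rr j)).indicator (fun _ => ENNReal.ofReal (cB j i)) x ≤
        ∑ i ∈ Finset.range (2 ^ (j + 2) + 2), ENNReal.ofReal (16 * (1 / 4) ^ j) := by
      refine Finset.sum_le_sum fun i _ => ?_
      have hr := rr_pos j
      refine (int_ind _ _ _ (by positivity) (cB_nonneg j i)).trans (le_of_eq ?_)
      congr 1
      unfold cB
      have h4 : ((1 / 2 : ℝ) ^ i * rr j) ^ 2 = rr j ^ 2 / 4 ^ i := by
        rw [mul_pow, ← pow_mul, mul_comm i 2, pow_mul]
        have : ((1 / 2 : ℝ) ^ 2) ^ i = 1 / 4 ^ i := by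
          rw [one_div_pow, one_div_pow]; norm_num
        rw [this]; ring
      rw [h4, one_div_pow]
      field_simp
      ring
    refine h1.trans ?_
    rw [Finset.sum_const, Finset.card_range, ← ENNReal.ofReal_nsmul]
    apply ENNReal.ofReal_le_ofReal
    rw [nsmul_eq_mul]
    push_cast
    have e1 : (2 : ℝ) ^ (j + 2) = 4 * 2 ^ j := by rw [pow_add]; ring
    have e2 : (1 / 4 : ℝ) ^ j = (1 / 2) ^ j * (1 / 2) ^ j := by
      rw [← mul_pow]; norm_num
    have e3 : (2 : ℝ) ^ j * (1 / 2) ^ j = 1 := by rw [← mul_pow]; norm_num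
    have e4 : (1 / 2 : ℝ) ^ j ≤ 1 := pow_le_one₀ (by norm_num) (by norm_num)
    have e5 : (0 : ℝ) < (1 / 2 : ℝ) ^ j := by positivity
    rw [e1, e2]
    have e6 : (4 * (2 : ℝ) ^ j + 2) * (16 * ((1 / 2) ^ j * (1 / 2) ^ j)) =
        64 * ((2 : ℝ) ^ j * (1 / 2) ^ j) * (1 / 2) ^ j + 32 * ((1 / 2) ^ j * (1 / 2) ^ j) := by ring
    rw [e6, e3]
    nlinarith
  refine lt_of_le_of_lt hle ?_
  have hsum : Summable fun j : ℕ => 96 * (1 / 2 : ℝ) ^ j :=
    (summable_geometric_of_lt_one (by norm_num) (by norm_num)).mul_left _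
  exact hsum.tsum_ofReal_lt_top

private lemma le_GA {x : E} {k : ℕ} {F : ℝ} (hx : x ∈ Bx 0 ((1 / 2) ^ k)) (hF : F ≤ cA k) :
    ENNReal.ofReal F ≤ GA x := by
  unfold GA
  refine le_trans ?_ (ENNReal.le_tsum k)
  rw [indicator_of_mem hx]
  exact ENNReal.ofReal_le_ofReal hF

private lemma le_GB {x : E} {j i : ℕ} {F : ℝ} (hi : i < 2 ^ (j + 2) + 2)
    (hx : x ∈ Bx (rr j) ((1 / 2) ^ i * rr j)) (hF : F ≤ cB j i) :
    ENNReal.ofReal F ≤ GB x := by
  unfold GB
  refine le_trans ?_ (ENNReal.le_tsum j)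
  refine le_trans ?_ (Finset.single_le_sum (f := fun i =>
    (Bx (rr j) ((1 / 2) ^ i * rr j)).indicator (fun _ => ENNReal.ofReal (cB j i)) x)
    (fun _ _ => zero_le) (Finset.mem_range.2 hi))
  rw [indicator_of_mem hx]
  exact ENNReal.ofReal_le_ofReal hF

private lemma log_two_ge : (1 / 2 : ℝ) ≤ Real.log 2 := by
  have := Real.log_two_gt_d9; linarith

private lemma log_two_le : Real.log 2 ≤ 1 := by
  have := Real.log_two_lt_d9; linarith

private lemma inv_sq_le {a b : ℝ} (ha : 0 < a) (hab : a ≤ b) : (b⁻¹) ^ 2 ≤ (a⁻¹) ^ 2 := by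
  have h1 : b⁻¹ ≤ a⁻¹ := inv_anti₀ ha hab
  have h2 : 0 < b⁻¹ := inv_pos.2 (lt_of_lt_of_le ha hab)
  exact pow_le_pow_left₀ h2.le h1 2

/-- near the origin -/
private lemma caseA {x : E} (hx : x ∈ Om) (hx1 : x 1 ≠ 0) (h4 : rho x ≤ 4 * dd x) :
    ENNReal.ofReal (((mm x * max (dd x) (lam x))⁻¹) ^ 2) ≤ GA x := by
  obtain ⟨hx0, hx1', hx2, hx3⟩ := hx
  have hR0 : 0 < rho x := by
    unfold rho
    have : 0 < |x 1| := abs_pos.2 hx1
    have := abs_nonneg (x 0)
    linarith
  have hR1 : rho x ≤ 1 := by unfold rho; linarith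
  obtain ⟨k, hk1, hk2⟩ := exists_nat_pow_near_of_lt_one hR0 hR1 (by norm_num : (0 : ℝ) < 1 / 2)
    (by norm_num)
  have hmem : x ∈ Bx 0 ((1 / 2) ^ k) := by
    refine ⟨?_, ?_, hx2, hx3⟩
    · rw [sub_zero]
      refine le_trans ?_ hk2
      unfold rho
      have := abs_nonneg (x 1)
      linarith
    · refine le_trans ?_ hk2
      unfold rho
      have := abs_nonneg (x 0)
      linarith
  refine le_GA hmem ?_
  have hm : ((k : ℝ) + 1) / 2 ≤ mm x := by
    unfold mm
    have h1 : Real.log (rho x) ≤ Real.log ((1 / 2 : ℝ) ^ k) := Real.log_le_log hR0 hk2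
    rw [Real.log_pow, one_div, Real.log_inv] at h1
    have h2 := log_two_ge
    have hk0 : (0 : ℝ) ≤ k := Nat.cast_nonneg k
    nlinarith
  have hM : rho x / 4 ≤ max (dd x) (lam x) := le_trans (by linarith) (le_max_left _ _)
  have hprod : (((k : ℝ) + 1) / 2) * ((1 / 2) ^ (k + 1) / 4) ≤ mm x * max (dd x) (lam x) := by
    refine mul_le_mul hm (le_trans ?_ hM) (by positivity) (le_trans (by positivity) hm)
    linarith
  refine (inv_sq_le (by positivity) hprod).trans (le_of_eq ?_)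
  unfold cA
  have e : (1 / 2 : ℝ) ^ (k + 1) = 1 / (2 * 2 ^ k) := by
    rw [one_div_pow, pow_succ]; ring
  have e4 : (4 : ℝ) ^ k = 2 ^ k * 2 ^ k := by rw [← mul_pow]; norm_num
  rw [e, e4]
  field_simp
  norm_num

private lemma dyadic {j : ℕ} {δ : ℝ} (hδ : 0 < δ) (hδL : δ ≤ rr j) :
    ∃ i, i < 2 ^ (j + 2) + 2 ∧ δ ≤ (1 / 2) ^ i * rr j ∧
      (1 / 2) ^ (i + 1) * rr j ≤ max δ (rr j ^ 2 / 4) := by
  have hL := rr_pos j
  by_cases h : δ ≤ (1 / 2) ^ (2 ^ (j + 2) + 1) * rr j
  · refine ⟨2 ^ (j + 2) + 1, by omega, h, ?_⟩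
    refine le_trans (le_of_eq ?_) (le_max_right _ _)
    have : (1 / 2 : ℝ) ^ (2 ^ (j + 2) + 1 + 1) = rr j / 4 := by
      rw [pow_succ, pow_succ]
      unfold rr
      ring
    rw [this]; ring
  · push Not at h
    have h0 : 0 < δ / rr j := by positivity
    have h1 : δ / rr j ≤ 1 := by rw [div_le_one hL]; exact hδL
    obtain ⟨n, hn1, hn2⟩ := exists_nat_pow_near_of_lt_one h0 h1 (by norm_num : (0 : ℝ) < 1 / 2)
      (by norm_num)
    rw [lt_div_iff₀ hL] at hn1
    rw [div_le_iff₀ hL] at hn2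
    refine ⟨n, ?_, hn2, hn1.le.trans (le_max_left _ _)⟩
    by_contra hcon
    push Not at hcon
    have : (1 / 2 : ℝ) ^ n ≤ (1 / 2) ^ (2 ^ (j + 2) + 1) :=
      pow_le_pow_of_le_one (by norm_num) (by norm_num) (by omega)
    have h5 : (1 / 2 : ℝ) ^ n * rr j ≤ (1 / 2) ^ (2 ^ (j + 2) + 1) * rr j :=
      mul_le_mul_of_nonneg_right this hL.le
    linarith

private lemma lam_ge {x : E} (hx : x ∈ Om) (hx1 : x 1 ≠ 0) : rho x ^ 2 / 3 ≤ lam x := by
  obtain ⟨hx0, hx1', hx2, hx3⟩ := hx
  have hR0 : 0 < rho x := by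
    unfold rho
    have : 0 < |x 1| := abs_pos.2 hx1
    have := abs_nonneg (x 0)
    linarith
  have hR1 : rho x ≤ 1 := by unfold rho; linarith
  have hm : 1 ≤ mm x := by
    unfold mm
    have := Real.log_nonpos hR0.le hR1
    linarith
  unfold lam
  have h1 : Real.exp (-mm x) ≤ Real.exp (-(mm x * x 2)) := by
    apply Real.exp_le_exp.2
    nlinarith
  have h2 : Real.exp (-mm x) = rho x * Real.exp (-1) := by
    unfold mm
    have : -(1 - Real.log (rho x)) = Real.log (rho x) + -1 := by ring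
    rw [this, Real.exp_add, Real.exp_log hR0]
  have h3 : (1 : ℝ) / 3 ≤ Real.exp (-1) := by
    rw [Real.exp_neg, ← one_div]
    have := Real.exp_one_lt_d9
    apply one_div_le_one_div_of_le (Real.exp_pos 1)
    linarith
  calc rho x ^ 2 / 3 = rho x * (rho x * (1 / 3)) := by ring
    _ ≤ rho x * (rho x * Real.exp (-1)) := by gcongr
    _ = rho x * Real.exp (-mm x) := by rw [h2]
    _ ≤ rho x * Real.exp (-(mm x * x 2)) := by gcongr

/-- near `rr j` -/
private lemma caseB {x : E} (hx : x ∈ Om) (hx1 : x 1 ≠ 0) (h4 : ¬ rho x ≤ 4 * dd x) :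
    ENNReal.ofReal (((mm x * max (dd x) (lam x))⁻¹) ^ 2) ≤ GB x := by
  push Not at h4
  have hlam := lam_ge hx hx1
  obtain ⟨hx0, hx1', hx2, hx3⟩ := hx
  have hy : 0 < |x 1| := abs_pos.2 hx1
  have hR0 : 0 < rho x := by
    unfold rho
    have := abs_nonneg (x 0)
    linarith
  have hne : ZZ.Nonempty := ⟨0, mem_insert _ _⟩
  have hddpos : 0 < dd x := by
    unfold dd
    have : 0 ≤ Metric.infDist (x 0) ZZ := Metric.infDist_nonneg
    linarith
  have hlt : Metric.infDist (x 0) ZZ < 2 * dd x - |x 1| := by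
    have : Metric.infDist (x 0) ZZ = dd x - |x 1| := by unfold dd; ring
    rw [this]; linarith
  obtain ⟨z, hz, hzd⟩ := (Metric.infDist_lt_iff hne).1 hlt
  rw [Real.dist_eq] at hzd
  rcases hz with hz0 | ⟨j, rfl⟩
  · exfalso
    rw [hz0, sub_zero] at hzd
    unfold rho at h4
    linarith
  · have hL := rr_pos j
    set δ : ℝ := |x 0 - rr j| + |x 1| with hδ
    have hδ0 : 0 < δ := by
      have := abs_nonneg (x 0 - rr j)
      rw [hδ]; linarith
    have hδdd : δ < 2 * dd x := by rw [hδ]; linarith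
    have hδR : δ < rho x / 2 := by linarith
    have habs : |(|x 0|) - rr j| ≤ |x 0 - rr j| := by
      have := abs_abs_sub_abs_le_abs_sub (x 0) (rr j)
      rwa [abs_of_pos hL] at this
    have hRL : |rho x - rr j| ≤ δ := by
      have e : rho x - rr j = (|x 0| - rr j) + |x 1| := by unfold rho; ring
      rw [e]
      refine (abs_add_le _ _).trans ?_
      rw [abs_abs, hδ]
      linarith
    rw [abs_le] at hRL
    have h1 : rho x < 2 * rr j := by linarith [hRL.2]
    have h2 : 2 * rr j / 3 < rho x := by linarith [hRL.1]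
    have hδL : δ ≤ rr j := by linarith
    obtain ⟨i, hi, hi1, hi2⟩ := dyadic hδ0 hδL
    have hmem : x ∈ Bx (rr j) ((1 / 2) ^ i * rr j) := by
      refine ⟨?_, ?_, hx2, hx3⟩
      · refine le_trans ?_ hi1
        rw [hδ]; linarith
      · refine le_trans ?_ hi1
        have := abs_nonneg (x 0 - rr j)
        rw [hδ]; linarith
    refine le_GB hi hmem ?_
    have hm : (2 : ℝ) ^ (j + 1) ≤ mm x := by
      unfold mm
      have h5 : Real.log (rho x) ≤ Real.log (2 * rr j) := Real.log_le_log hR0 h1.le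
      rw [Real.log_mul (by norm_num) hL.ne'] at h5
      have h6 : Real.log (rr j) = -((2 : ℝ) ^ (j + 2) * Real.log 2) := by
        unfold rr
        rw [Real.log_pow, one_div, Real.log_inv]
        push_cast
        ring
      rw [h6] at h5
      have h7 := log_two_ge
      have h8 := log_two_le
      have h9 : (2 : ℝ) ^ (j + 2) = 2 * 2 ^ (j + 1) := by rw [pow_succ]; ring
      have h10 : (0 : ℝ) < 2 ^ (j + 1) := by positivity
      rw [h9] at h5
      nlinarith
    have hM : ((1 / 2) ^ (i + 1) * rr j) / 2 ≤ max (dd x) (lam x) := by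
      have h11 : max δ (rr j ^ 2 / 4) / 2 ≤ max (dd x) (lam x) := by
        rw [div_le_iff₀ (by norm_num)]
        apply max_le
        · have := le_max_left (dd x) (lam x)
          linarith
        · have h12 := le_max_right (dd x) (lam x)
          have h13 : (2 * rr j / 3) ^ 2 ≤ rho x ^ 2 := pow_le_pow_left₀ (by positivity) h2.le 2
          nlinarith
      linarith
    have hprod : (2 : ℝ) ^ (j + 1) * (((1 / 2) ^ (i + 1) * rr j) / 2) ≤
        mm x * max (dd x) (lam x) :=
      mul_le_mul hm hM (by positivity) (le_trans (by positivity) hm)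
    refine (inv_sq_le (by positivity) hprod).trans (le_of_eq ?_)
    unfold cB
    have e1 : (4 : ℝ) ^ (j + 1) = 2 ^ (j + 1) * 2 ^ (j + 1) := by rw [← mul_pow]; norm_num
    have e2 : (4 : ℝ) ^ (i + 1) = 2 ^ (i + 1) * 2 ^ (i + 1) := by rw [← mul_pow]; norm_num
    have e3 : (1 / 2 : ℝ) ^ (i + 1) = 1 / 2 ^ (i + 1) := one_div_pow _ _
    rw [e1, e2, e3]
    field_simp
    norm_num

private lemma int_meas : Measurable fun x : E => (mm x * max (dd x) (lam x))⁻¹ := by
  have h0 := (int_coord_cont 0).measurable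
  have h1 := (int_coord_cont 1).measurable
  have h2 := (int_coord_cont 2).measurable
  have hr : Measurable rho := by
    unfold rho
    exact ((int_coord_cont 0).abs.add (int_coord_cont 1).abs).measurable
  have hm : Measurable mm := by
    unfold mm
    exact measurable_const.sub (Real.measurable_log.comp hr)
  have hd : Measurable dd := by
    unfold dd
    exact ((int_coord_cont 1).abs.add
      ((Metric.continuous_infDist_pt ZZ).comp (int_coord_cont 0))).measurable
  have hl : Measurable lam := by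
    unfold lam
    exact hr.mul (Real.measurable_exp.comp (hm.mul h2).neg)
  exact (hm.mul (hd.max hl)).inv

private lemma int_null : ∀ᵐ x : E, x 1 ≠ 0 := by
  have h := PiLp.volume_preserving_ofLp (Fin 3)
  rw [ae_iff]
  have hset : {x : E | ¬ (x 1 ≠ 0)} =
      (@WithLp.ofLp 2 (Fin 3 → ℝ)) ⁻¹' {y : Fin 3 → ℝ | y 1 = 0} := by
    ext x; simp
  have hmeas : MeasurableSet {y : Fin 3 → ℝ | y 1 = 0} :=
    (isClosed_eq (continuous_apply 1) continuous_const).measurableSet
  rw [hset, h.measure_preimage hmeas.nullMeasurableSet]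
  have := Measure.addHaar_affineSubspace (volume : Measure (Fin 3 → ℝ))
  have hk : {y : Fin 3 → ℝ | y 1 = 0} =
      ((LinearMap.ker (LinearMap.proj (R := ℝ) (φ := fun _ : Fin 3 => ℝ) 1) :
        Submodule ℝ (Fin 3 → ℝ)) : Set (Fin 3 → ℝ)) := by
    ext y; simp
  rw [hk]
  apply Measure.addHaar_submodule
  intro htop
  have h1 : (fun _ : Fin 3 => (1 : ℝ)) ∈
      (LinearMap.ker (LinearMap.proj (R := ℝ) (φ := fun _ : Fin 3 => ℝ) 1) :
        Submodule ℝ (Fin 3 → ℝ)) := by rw [htop]; trivial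
  simp at h1

theorem int : IntSpec := by
  unfold IntSpec
  rw [memLp_two_iff_integrable_sq int_meas.aestronglyMeasurable]
  refine ⟨(int_meas.pow_const 2).aestronglyMeasurable, ?_⟩
  rw [hasFiniteIntegral_iff_ofReal (Filter.Eventually.of_forall fun x => sq_nonneg _)]
  have hOm : MeasurableSet Om := by
    have h0 := int_coord_cont 0
    have h1 := int_coord_cont 1
    have h2 := int_coord_cont 2
    refine MeasurableSet.inter ?_ (MeasurableSet.inter ?_ (MeasurableSet.inter ?_ ?_))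
    · exact (isOpen_lt h0.abs continuous_const).measurableSet
    · exact (isOpen_lt h1.abs continuous_const).measurableSet
    · exact (isOpen_lt continuous_const h2).measurableSet
    · exact (isOpen_lt h2 continuous_const).measurableSet
  have hle : ∫⁻ x in Om, ENNReal.ofReal (((mm x * max (dd x) (lam x))⁻¹) ^ 2) ≤
      ∫⁻ x in Om, (GA x + GB x) := by
    refine lintegral_mono_ae ?_
    filter_upwards [ae_restrict_of_ae int_null, ae_restrict_mem hOm] with x hx1 hxOm
    by_cases h4 : rho x ≤ 4 * dd x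
    · exact (caseA hxOm hx1 h4).trans le_self_add
    · exact (caseB hxOm hx1 h4).trans le_add_self
  refine lt_of_le_of_lt hle ?_
  refine lt_of_le_of_lt (setLIntegral_le_lintegral _ _) ?_
  rw [lintegral_add_left GA_meas]
  exact ENNReal.add_lt_top.2 ⟨GA_int, GB_int⟩

end Pool.Agent.Lib.MP_8dcfde_an
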