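import Pool.Agent.Lib.MP_8dcfde_an.Spec

/-!
# MP_8dcfde_an: the Jacobian of the map
-/

set_option autoImplicit false

namespace Pool.Agent.Lib.MP_8dcfde_an

open MeasureTheory Set Filter Topology

namespace JacAux

/-- unit vectors -/
noncomputable def ev (i : Fin 3) : E := EuclideanSpace.single i (1 : ℝ)

lemma ev_apply (i j : Fin 3) : (ev i) j = if j = i then 1 else 0 := by
  simp [ev]

lemma line_apply (x : E) (u : ℝ) (i j : Fin 3) :
    (x + u • ev i) j = x j + u * (if j = i then 1 else 0) := by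
  simp [ev_apply]

lemma cont_coord (i : Fin 3) : Continuous (fun x : E => x i) :=
  (EuclideanSpace.proj (𝕜 := ℝ) i).continuous

lemma cont_rho : Continuous rho := ((cont_coord 0).abs).add ((cont_coord 1).abs)

lemma cont_dd : Continuous dd :=
  ((cont_coord 1).abs).add ((Metric.continuous_infDist_pt ZZ).comp (cont_coord 0))

lemma dd_ge (x : E) : |x 1| ≤ dd x := by
  have := Metric.infDist_nonneg (x := x 0) (s := ZZ)
  unfold dd
  linarith

lemma rho_ge (x : E) : |x 1| ≤ rho x := by
  have := abs_nonneg (x 0)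
  unfold rho
  linarith

lemma rho_line2 (x : E) (u : ℝ) : rho (x + u • ev 2) = rho x := by
  unfold rho
  rw [line_apply, line_apply]
  simp

lemma dd_line2 (x : E) (u : ℝ) : dd (x + u • ev 2) = dd x := by
  unfold dd
  rw [line_apply, line_apply]
  simp

lemma mm_line2 (x : E) (u : ℝ) : mm (x + u • ev 2) = mm x := by
  unfold mm
  rw [rho_line2]

lemma sig_line2 (x : E) (u : ℝ) : sig (x + u • ev 2) = sig x + mm x * u := by
  unfold sig
  rw [rho_line2, dd_line2, mm_line2, line_apply]
  simp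
  ring

lemma lam_line2 (x : E) (u : ℝ) :
    lam (x + u • ev 2) = rho x * Real.exp (-(mm x * (x 2 + u))) := by
  unfold lam
  rw [rho_line2, mm_line2, line_apply]
  simp

lemma dd_line1 (x : E) (u : ℝ) : dd (x + u • ev 1) = |x 1 + u| + Metric.infDist (x 0) ZZ := by
  unfold dd
  rw [line_apply, line_apply]
  simp

lemma mm_pos {x : E} (hx : x ∈ Om) : 0 < mm x := by
  have h0 : 0 ≤ rho x := (abs_nonneg _).trans (rho_ge x)
  have h1 : rho x ≤ 1 := by
    unfold rho
    have := hx.1
    have := hx.2.1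
    linarith
  have := Real.log_nonpos h0 h1
  unfold mm
  linarith

lemma isOpen_Om : IsOpen Om := by
  have h : Om = {x : E | |x 0| < 1/4} ∩ ({x : E | |x 1| < 1/4} ∩ ({x : E | 0 < x 2} ∩
      {x : E | x 2 < 1})) := by
    ext x
    simp only [Om, mem_inter_iff, Set.mem_ofPred_eq]
  rw [h]
  exact (isOpen_lt (cont_coord 0).abs continuous_const).inter
    ((isOpen_lt (cont_coord 1).abs continuous_const).inter
      ((isOpen_lt continuous_const (cont_coord 2)).inter
        (isOpen_lt (cont_coord 2) continuous_const)))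

lemma sgn_facts (a : ℝ) (h : a ≠ 0) : (SignType.sign a : ℝ) * a = |a| ∧
    (SignType.sign a : ℝ) * (SignType.sign a : ℝ) = 1 := by
  rcases lt_or_gt_of_ne h with h1 | h1
  · rw [sign_neg h1, abs_of_neg h1]
    constructor <;> simp
  · rw [sign_pos h1, abs_of_pos h1]
    constructor <;> simp

lemma YY_le (u v : ℝ) : |YY u v| ≤ |u| := by
  unfold YY
  rw [abs_div, abs_of_pos (by norm_num : (0 : ℝ) < 2)]
  have h1 : |(|u + v| - |u - v|)| ≤ |(u + v) - (-(u - v))| := by
    have := abs_abs_sub_abs_le (u + v) (-(u - v))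
    rwa [abs_neg] at this
  have h2 : (u + v) - (-(u - v)) = 2 * u := by ring
  rw [h2, abs_mul, abs_of_pos (by norm_num : (0 : ℝ) < 2)] at h1
  linarith

lemma YY_eq_left {u v ε : ℝ} (h : |u| ≤ |v|) (h1 : ε * ε = 1) (h2 : ε * v = |v|) :
    YY u v = ε * u := by
  have h3 : v = ε * |v| := by
    calc v = (ε * ε) * v := by rw [h1, one_mul]
      _ = ε * |v| := by rw [mul_assoc, h2]
  have hε : ε = 1 ∨ ε = -1 := mul_self_eq_one_iff.1 h1
  obtain ⟨h4, h5⟩ := abs_le.1 h
  unfold YY
  rcases hε with rfl | rfl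
  · rw [one_mul] at h3
    rw [abs_of_nonneg (by linarith : 0 ≤ u + v), abs_of_nonpos (by linarith : u - v ≤ 0)]
    ring
  · have h6 : v = - |v| := by linarith
    rw [abs_of_nonpos (by linarith : u + v ≤ 0), abs_of_nonneg (by linarith : 0 ≤ u - v)]
    ring

lemma YY_eq_right {u v η : ℝ} (h : |v| ≤ |u|) (h1 : η * η = 1) (h2 : η * u = |u|) :
    YY u v = η * v := by
  have hs : YY u v = YY v u := by
    unfold YY
    rw [add_comm u v, abs_sub_comm u v]
  rw [hs]
  exact YY_eq_left h h1 h2

lemma ff_zero (y : E) : (ff y) 0 = y 0 := by simp [ff]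
lemma ff_one (y : E) : (ff y) 1 = YY (y 1) (aa y) := by simp [ff]
lemma ff_two (y : E) : (ff y) 2 = bb y := by simp [ff]

lemma comp_hasFDerivAt {x : E} {L : E →L[ℝ] E} (hL : HasFDerivAt ff L x) (i : Fin 3) :
    HasFDerivAt (fun y => (ff y) i) ((EuclideanSpace.proj (𝕜 := ℝ) i).comp L) x :=
  (EuclideanSpace.proj (𝕜 := ℝ) i).hasFDerivAt.comp x hL

lemma row_zero {x : E} {L : E →L[ℝ] E} (hL : HasFDerivAt ff L x) (v : E) : (L v) 0 = v 0 := by
  have h1 := comp_hasFDerivAt hL 0
  have h2 : HasFDerivAt (fun y : E => (ff y) 0) (EuclideanSpace.proj (𝕜 := ℝ) (0 : Fin 3)) x := by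
    have h3 : (fun y : E => (ff y) 0) = fun y : E => (EuclideanSpace.proj (𝕜 := ℝ) (0 : Fin 3)) y := by
      funext y
      rw [ff_zero]
      rfl
    rw [h3]
    exact (EuclideanSpace.proj (𝕜 := ℝ) (0 : Fin 3)).hasFDerivAt
  have h4 := congrArg (fun T : E →L[ℝ] ℝ => T v) (h1.unique h2)
  exact h4

lemma dir {x : E} {L : E →L[ℝ] E} (hL : HasFDerivAt ff L x) (v : E) (i : Fin 3) :
    HasDerivAt (fun u : ℝ => (ff (x + u • v)) i) ((L v) i) 0 := by
  have h1 : HasDerivAt (fun u : ℝ => x + u • v) v 0 := by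
    have := ((hasDerivAt_id (0 : ℝ)).smul_const v).const_add x
    simpa using this
  have h2 : HasFDerivAt (fun y => (ff y) i) ((EuclideanSpace.proj (𝕜 := ℝ) i).comp L)
      (x + (0 : ℝ) • v) := by
    rw [zero_smul, add_zero]
    exact comp_hasFDerivAt hL i
  exact h2.comp_hasDerivAt (0 : ℝ) h1

lemma ev_line {x : E} (v : E) {P : E → Prop} (h : ∀ᶠ y in 𝓝 x, P y) :
    ∀ᶠ u : ℝ in 𝓝 0, P (x + u • v) := by
  have h1 : Tendsto (fun u : ℝ => x + u • v) (𝓝 0) (𝓝 x) := by
    have h2 : Continuous (fun u : ℝ => x + u • v) := by fun_prop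
    have h3 := h2.tendsto 0
    simpa using h3
  exact h1.eventually h

lemma det_eq {x : E} {L : E →L[ℝ] E} (hL : HasFDerivAt ff L x) :
    LinearMap.det L.toLinearMap =
      (L (ev 1)) 1 * (L (ev 2)) 2 - (L (ev 2)) 1 * (L (ev 1)) 2 := by
  rw [← LinearMap.det_toMatrix (EuclideanSpace.basisFun (Fin 3) ℝ).toBasis, Matrix.det_fin_three]
  have h : ∀ i j : Fin 3, (LinearMap.toMatrix (EuclideanSpace.basisFun (Fin 3) ℝ).toBasis
      (EuclideanSpace.basisFun (Fin 3) ℝ).toBasis L.toLinearMap) i j = (L (ev j)) i := by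
    intro i j
    rw [LinearMap.toMatrix_apply]
    simp [ev]
  simp only [h]
  rw [row_zero hL, row_zero hL, row_zero hL, ev_apply, ev_apply, ev_apply]
  simp

/-- The first case: the second component is `± x 1` in `x`. -/
lemma min_case {x : E} {L : E →L[ℝ] E} (hL : HasFDerivAt ff L x) (h1 : x 1 ≠ 0)
    (h : |x 1| ≤ |aa x|) {ε : ℝ} (hε : ε * ε = 1) (hε' : ε * aa x = |aa x|) (v : E) :
    (L v) 1 = ε * v 1 := by
  obtain ⟨hη', hη⟩ := sgn_facts (x 1) h1
  set η : ℝ := (SignType.sign (x 1) : ℝ) with hηdef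
  set g : E → ℝ := fun y => η * y 1 - ε * η * (ff y) 1 with hg
  have hgd : HasFDerivAt g (η • (EuclideanSpace.proj (𝕜 := ℝ) (1 : Fin 3)) -
      (ε * η) • ((EuclideanSpace.proj (𝕜 := ℝ) (1 : Fin 3)).comp L)) x := by
    have e1 : HasFDerivAt (fun y : E => η * y 1) (η • (EuclideanSpace.proj (𝕜 := ℝ) (1 : Fin 3)))
        x := (EuclideanSpace.proj (𝕜 := ℝ) (1 : Fin 3)).hasFDerivAt.const_mul η
    have e2 := (comp_hasFDerivAt hL 1).const_mul (ε * η)
    exact e1.sub e2
  have hεη : |ε * η| = 1 := by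
    have e1 : (ε * η) * (ε * η) = 1 := by
      calc (ε * η) * (ε * η) = (ε * ε) * (η * η) := by ring
        _ = 1 := by rw [hε, hη, one_mul]
    have e2 : |ε * η| * |ε * η| = 1 := by rw [abs_mul_abs_self, e1]
    have e3 := abs_nonneg (ε * η)
    nlinarith
  have hmin : IsLocalMin g x := by
    have e0 : g x = 0 := by
      rw [hg]
      simp only
      rw [ff_one, YY_eq_left h hε hε']
      calc η * x 1 - ε * η * (ε * x 1) = η * x 1 * (1 - ε * ε) := by ring
        _ = 0 := by rw [hε]; ring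
    have e1 : ∀ᶠ y in 𝓝 x, 0 < η * y 1 := by
      have e2 : Continuous (fun y : E => η * y 1) := continuous_const.mul (cont_coord 1)
      have e3 : 0 < η * x 1 := by rw [hη']; exact abs_pos.2 h1
      exact (e2.tendsto x).eventually (lt_mem_nhds e3)
    filter_upwards [e1] with y hy
    rw [e0, hg]
    simp only
    have e4 : η * y 1 = |y 1| := by
      have e5 : |η * y 1| = |y 1| := by
        rw [abs_mul]
        have : |η| = 1 := by
          have e6 : |η| * |η| = 1 := by rw [abs_mul_abs_self, hη]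
          have e7 := abs_nonneg η
          nlinarith
        rw [this, one_mul]
      rw [← e5, abs_of_pos hy]
    have e8 : ε * η * (ff y) 1 ≤ |y 1| := by
      calc ε * η * (ff y) 1 ≤ |ε * η * (ff y) 1| := le_abs_self _
        _ = |(ff y) 1| := by rw [abs_mul, hεη, one_mul]
        _ ≤ |y 1| := by rw [ff_one]; exact YY_le _ _
    linarith
  have h0 := hmin.hasFDerivAt_eq_zero hgd
  have h2 := congrArg (fun T : E →L[ℝ] ℝ => T v) h0
  have h3 : η * v 1 - ε * η * (L v) 1 = 0 := h2
  calc (L v) 1 = (ε * ε) * (η * η) * (L v) 1 := by rw [hε, hη]; ring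
    _ = ε * η * (ε * η * (L v) 1) := by ring
    _ = ε * η * (η * v 1) := by rw [show ε * η * (L v) 1 = η * v 1 by linarith]
    _ = ε * (η * η) * v 1 := by ring
    _ = ε * v 1 := by rw [hη]; ring

lemma cont_sig {x : E} (h1 : x 1 ≠ 0) : ContinuousAt sig x := by
  have hd : 0 < dd x := lt_of_lt_of_le (abs_pos.2 h1) (dd_ge x)
  have hr : 0 < rho x := lt_of_lt_of_le (abs_pos.2 h1) (rho_ge x)
  have e1 : ContinuousAt (fun y => Real.log (dd y)) x := cont_dd.continuousAt.log hd.ne'
  have e2 : ContinuousAt (fun y => Real.log (rho y)) x := cont_rho.continuousAt.log hr.ne'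
  have e3 : ContinuousAt mm x := continuousAt_const.sub e2
  exact (e1.sub e2).add (e3.mul (cont_coord 2).continuousAt)

lemma sig_eq {x : E} (h1 : x 1 ≠ 0) : sig x = Real.log (dd x) - Real.log (lam x) := by
  have hr : 0 < rho x := lt_of_lt_of_le (abs_pos.2 h1) (rho_ge x)
  unfold sig lam
  rw [Real.log_mul hr.ne' (Real.exp_pos _).ne', Real.log_exp]
  ring

lemma lam_pos {x : E} (h1 : x 1 ≠ 0) : 0 < lam x := by
  have hr : 0 < rho x := lt_of_lt_of_le (abs_pos.2 h1) (rho_ge x)
  exact mul_pos hr (Real.exp_pos _)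

lemma lt_of_sig_pos {x : E} (h1 : x 1 ≠ 0) (h : 0 < sig x) : lam x < dd x := by
  have hd : 0 < dd x := lt_of_lt_of_le (abs_pos.2 h1) (dd_ge x)
  rw [sig_eq h1] at h
  exact (Real.log_lt_log_iff (lam_pos h1) hd).1 (by linarith)

lemma lt_of_sig_neg {x : E} (h1 : x 1 ≠ 0) (h : sig x < 0) : dd x < lam x := by
  have hd : 0 < dd x := lt_of_lt_of_le (abs_pos.2 h1) (dd_ge x)
  rw [sig_eq h1] at h
  exact (Real.log_lt_log_iff hd (lam_pos h1)).1 (by linarith)

lemma ne_ev {x : E} (h1 : x 1 ≠ 0) : ∀ᶠ y in 𝓝 x, y 1 ≠ 0 :=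
  ((cont_coord 1).tendsto x).eventually (isOpen_ne.mem_nhds h1)

lemma aa_pos {y : E} (h : 0 < sig y) : aa y = dd y * kap (sig y) := by
  unfold aa
  rw [max_eq_right h.le]

lemma bb_pos {y : E} (h1 : y 1 ≠ 0) (h : 0 < sig y) : bb y = dd y * tau (sig y) := by
  unfold bb
  rw [max_eq_right h.le, max_eq_right (by linarith [lt_of_sig_pos h1 h]), sub_zero]

lemma case_pos (hW : WaveSpec) {x : E} {L : E →L[ℝ] E} (hL : HasFDerivAt ff L x) (h1 : x 1 ≠ 0)
    (hk : ∀ k : ℤ, sig x ≠ k) (hs : 0 < sig x) :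
    LinearMap.det L.toLinearMap = mm x * dd x := by
  obtain ⟨-, -, hone, -, -, hder⟩ := hW
  obtain ⟨hk0, ht0, hdk, hdt⟩ := hder (sig x) hk
  have hd : 0 < dd x := lt_of_lt_of_le (abs_pos.2 h1) (dd_ge x)
  obtain ⟨hsk', hsk⟩ := sgn_facts (kap (sig x)) hk0
  obtain ⟨hst', hst⟩ := sgn_facts (tau (sig x)) ht0
  set sk : ℝ := (SignType.sign (kap (sig x)) : ℝ) with hskd
  set st : ℝ := (SignType.sign (tau (sig x)) : ℝ) with hstd
  have hsig : ∀ᶠ y in 𝓝 x, 0 < sig y := (cont_sig h1).tendsto.eventually (lt_mem_nhds hs)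
  have hne := ne_ev h1
  have hlin : ∀ (g : ℝ → ℝ) (g' : ℝ), HasDerivAt g g' (sig x) →
      HasDerivAt (fun u : ℝ => dd x * g (sig x + mm x * u)) (dd x * (g' * mm x)) 0 := by
    intro g g' hg
    have e1 : HasDerivAt (fun u : ℝ => sig x + mm x * u) (mm x) 0 := by
      have := ((hasDerivAt_id (0 : ℝ)).const_mul (mm x)).const_add (sig x)
      simpa using this
    have e2 : HasDerivAt g g' (sig x + mm x * 0) := by
      rw [mul_zero, add_zero]
      exact hg
    exact (e2.comp (0 : ℝ) e1).const_mul (dd x)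
  have h22 : (L (ev 2)) 2 = dd x * (sk * mm x) := by
    have e1 := dir hL (ev 2) 2
    have e2 := hlin tau sk hdt
    refine e1.unique (e2.congr_of_eventuallyEq ?_)
    filter_upwards [ev_line (ev 2) hsig, ev_line (ev 2) hne] with u hu hu'
    rw [ff_two, bb_pos hu' hu, dd_line2, sig_line2]
  have haa : aa x = dd x * kap (sig x) := aa_pos hs
  have haae : sk * aa x = |aa x| := by
    rw [haa, abs_mul, abs_of_pos hd, ← hsk']
    ring
  rw [det_eq hL]
  by_cases hcase : |x 1| ≤ |aa x|
  · have h11 := min_case hL h1 hcase hsk haae (ev 1)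
    have h12 := min_case hL h1 hcase hsk haae (ev 2)
    rw [h11, h12, h22, ev_apply, ev_apply]
    simp
    linear_combination (mm x * dd x) * hsk
  · push Not at hcase
    obtain ⟨hη', hη⟩ := sgn_facts (x 1) h1
    set η : ℝ := (SignType.sign (x 1) : ℝ) with hηdef
    -- continuity of `aa` and `bb` at `x`
    have hkc : ContinuousAt (fun y => kap (sig y)) x :=
      ContinuousAt.comp (f := sig) (g := kap) hdk.continuousAt (cont_sig h1)
    have htc : ContinuousAt (fun y => tau (sig y)) x :=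
      ContinuousAt.comp (f := sig) (g := tau) hdt.continuousAt (cont_sig h1)
    have haac : ContinuousAt aa x := by
      refine (cont_dd.continuousAt.mul hkc).congr ?_
      filter_upwards [hsig] with y hy
      exact (aa_pos hy).symm
    have hYY : ∀ᶠ y in 𝓝 x, (ff y) 1 = η * aa y := by
      have e1 : ∀ᶠ y in 𝓝 x, |aa y| < |y 1| := by
        have e2 : ContinuousAt (fun y : E => |y 1| - |aa y|) x :=
          (cont_coord 1).abs.continuousAt.sub haac.abs
        have e3 : ∀ᶠ y in 𝓝 x, 0 < |y 1| - |aa y| :=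
          e2.tendsto.eventually (lt_mem_nhds (by linarith))
        filter_upwards [e3] with y hy
        linarith
      have e4 : ∀ᶠ y in 𝓝 x, 0 < η * y 1 := by
        have e2 : Continuous (fun y : E => η * y 1) := continuous_const.mul (cont_coord 1)
        have e3 : 0 < η * x 1 := by rw [hη']; exact abs_pos.2 h1
        exact (e2.tendsto x).eventually (lt_mem_nhds e3)
      filter_upwards [e1, e4] with y hy hy'
      rw [ff_one]
      apply YY_eq_right hy.le hη
      have e5 : |η * y 1| = |y 1| := by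
        rw [abs_mul]
        have : |η| = 1 := by
          have e6 : |η| * |η| = 1 := by rw [abs_mul_abs_self, hη]
          have e7 := abs_nonneg η
          nlinarith
        rw [this, one_mul]
      rw [← e5, abs_of_pos hy']
    have h12 : (L (ev 2)) 1 = η * (dd x * (-st * mm x)) := by
      have e1 := dir hL (ev 2) 1
      have e2 := (hlin kap (-st) hdk).const_mul η
      refine e1.unique (e2.congr_of_eventuallyEq ?_)
      filter_upwards [ev_line (ev 2) hsig, ev_line (ev 2) hYY] with u hu hu'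
      rw [hu', aa_pos hu, dd_line2, sig_line2]
    -- the identity for `dd`
    have hdde : ∀ᶠ y in 𝓝 x, dd y = sk * (η * (ff y) 1) + st * (ff y) 2 := by
      have e1 : ∀ᶠ y in 𝓝 x, 0 < sk * kap (sig y) := by
        have e2 : 0 < sk * kap (sig x) := by rw [hsk']; exact abs_pos.2 hk0
        exact (continuousAt_const.mul hkc).tendsto.eventually (lt_mem_nhds e2)
      have e3 : ∀ᶠ y in 𝓝 x, 0 < st * tau (sig y) := by
        have e2 : 0 < st * tau (sig x) := by rw [hst']; exact abs_pos.2 ht0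
        exact (continuousAt_const.mul htc).tendsto.eventually (lt_mem_nhds e2)
      have hab : ∀ (s c : ℝ), s * s = 1 → 0 < s * c → s * c = |c| := by
        intro s c hs1 hs2
        have e5 : |s * c| = |c| := by
          rw [abs_mul]
          have : |s| = 1 := by
            have e6 : |s| * |s| = 1 := by rw [abs_mul_abs_self, hs1]
            have e7 := abs_nonneg s
            nlinarith
          rw [this, one_mul]
        rw [← e5, abs_of_pos hs2]
      filter_upwards [e1, e3, hYY, hsig, hne] with y g1 g2 g3 g4 g5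
      rw [g3, ff_two, bb_pos g5 g4, aa_pos g4]
      have g6 := hab sk _ hsk g1
      have g7 := hab st _ hst g2
      have g8 := hone (sig y)
      calc dd y = dd y * (|kap (sig y)| + |tau (sig y)|) := by rw [g8, mul_one]
        _ = dd y * (sk * kap (sig y) + st * tau (sig y)) := by rw [g6, g7]
        _ = (η * η) * (sk * (dd y * kap (sig y))) + st * (dd y * tau (sig y)) := by
            rw [hη]; ring
        _ = _ := by ring
    have h1x : η = sk * (η * (L (ev 1)) 1) + st * (L (ev 1)) 2 := by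
      have e1 : HasDerivAt (fun u : ℝ => sk * (η * (ff (x + u • ev 1)) 1) +
          st * (ff (x + u • ev 1)) 2) (sk * (η * (L (ev 1)) 1) + st * (L (ev 1)) 2) 0 :=
        (((dir hL (ev 1) 1).const_mul η).const_mul sk).add ((dir hL (ev 1) 2).const_mul st)
      have e2 : HasDerivAt (fun u : ℝ => η * (x 1 + u) + Metric.infDist (x 0) ZZ) η 0 := by
        have := (((hasDerivAt_id (0 : ℝ)).const_add (x 1)).const_mul η).add_const
          (Metric.infDist (x 0) ZZ)
        simpa using this
      refine (e1.unique (e2.congr_of_eventuallyEq ?_)).symm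
      have e4 : ∀ᶠ u : ℝ in 𝓝 0, 0 < η * (x 1 + u) := by
        have e5 : Continuous (fun u : ℝ => η * (x 1 + u)) := by fun_prop
        have e6 : 0 < η * (x 1 + 0) := by rw [add_zero, hη']; exact abs_pos.2 h1
        exact (e5.tendsto 0).eventually (lt_mem_nhds e6)
      filter_upwards [ev_line (ev 1) hdde, e4] with u hu hu'
      rw [← hu, dd_line1]
      congr 1
      have e5 : |η * (x 1 + u)| = |x 1 + u| := by
        rw [abs_mul]
        have : |η| = 1 := by
          have e6 : |η| * |η| = 1 := by rw [abs_mul_abs_self, hη]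
          have e7 := abs_nonneg η
          nlinarith
        rw [this, one_mul]
      rw [← e5, abs_of_pos hu']
    rw [h22, h12]
    linear_combination (-(dd x * mm x * η)) * h1x
      + (dd x * mm x - dd x * mm x * sk * (L (ev 1)) 1) * hη

lemma case_neg (hW : WaveSpec) {x : E} {L : E →L[ℝ] E} (hL : HasFDerivAt ff L x) (h1 : x 1 ≠ 0)
    (hs : sig x < 0) : LinearMap.det L.toLinearMap = mm x * lam x := by
  obtain ⟨-, -, -, hk0, ht0, -⟩ := hW
  have hd : 0 < dd x := lt_of_lt_of_le (abs_pos.2 h1) (dd_ge x)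
  have hsig : ∀ᶠ y in 𝓝 x, sig y < 0 := (cont_sig h1).tendsto.eventually (gt_mem_nhds hs)
  have hne := ne_ev h1
  have haa : aa x = dd x := by
    unfold aa
    rw [max_eq_left hs.le, hk0, mul_one]
  have hcase : |x 1| ≤ |aa x| := by
    rw [haa, abs_of_pos hd]
    exact dd_ge x
  have haae : (1 : ℝ) * aa x = |aa x| := by
    rw [haa, abs_of_pos hd, one_mul]
  have h11 := min_case hL h1 hcase (one_mul 1) haae (ev 1)
  have h12 := min_case hL h1 hcase (one_mul 1) haae (ev 2)
  have h22 : (L (ev 2)) 2 = mm x * lam x := by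
    have e1 := dir hL (ev 2) 2
    have e2 : HasDerivAt (fun u : ℝ => dd x - rho x * Real.exp (-(mm x * (x 2 + u))))
        (mm x * lam x) 0 := by
      have e3 : HasDerivAt (fun u : ℝ => -(mm x * (x 2 + u))) (-(mm x)) 0 := by
        have := (((hasDerivAt_id (0 : ℝ)).const_add (x 2)).const_mul (mm x)).fun_neg
        simpa using this
      have e4 := (e3.exp.const_mul (rho x)).const_sub (dd x)
      refine e4.congr_deriv ?_
      unfold lam
      rw [add_zero]
      ring
    refine e1.unique (e2.congr_of_eventuallyEq ?_)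
    filter_upwards [ev_line (ev 2) hsig, ev_line (ev 2) hne] with u hu hu'
    rw [ff_two]
    unfold bb
    rw [max_eq_left hu.le, ht0, mul_zero, max_eq_left (by linarith [lt_of_sig_neg hu' hu]),
      lam_line2, dd_line2]
    ring
  rw [det_eq hL, h11, h12, h22, ev_apply, ev_apply]
  simp

lemma ae_ne : ∀ᵐ x : E, x 1 ≠ 0 := by
  have h1 : (LinearMap.ker (EuclideanSpace.proj (𝕜 := ℝ) (1 : Fin 3)).toLinearMap :
      Submodule ℝ E) ≠ ⊤ := by
    intro h
    have h2 : ev 1 ∈ (LinearMap.ker (EuclideanSpace.proj (𝕜 := ℝ) (1 : Fin 3)).toLinearMap :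
      Submodule ℝ E) := h ▸ Submodule.mem_top
    rw [LinearMap.mem_ker] at h2
    have h3 : (ev 1) 1 = 0 := h2
    rw [ev_apply] at h3
    simp at h3
  have h4 := Measure.addHaar_submodule (volume : Measure E) _ h1
  rw [ae_iff]
  refine measure_mono_null ?_ h4
  intro x hx
  simp only [ne_eq, not_not, Set.mem_ofPred_eq] at hx
  exact hx

lemma ae_sig : ∀ᵐ x : E, 0 < mm x → ∀ k : ℤ, sig x ≠ k := by
  have hmd : Measurable dd := cont_dd.measurable
  have hmr : Measurable rho := cont_rho.measurable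
  have hmm : Measurable mm := (hmr.log).const_sub 1
  have hms : Measurable sig :=
    (hmd.log.sub hmr.log).add (hmm.mul (cont_coord 2).measurable)
  have hs : MeasurableSet {x : E | 0 < mm x → ∀ k : ℤ, sig x ≠ k} := by
    have h1 : {x : E | 0 < mm x → ∀ k : ℤ, sig x ≠ k} =
        {x : E | 0 < mm x}ᶜ ∪ ⋂ k : ℤ, {x : E | sig x = k}ᶜ := by
      ext x
      simp only [Set.mem_ofPred_eq, mem_union, mem_compl_iff, mem_iInter]
      tauto
    rw [h1]
    refine (measurableSet_lt measurable_const hmm).compl.union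
      (MeasurableSet.iInter fun k => ?_)
    exact (measurableSet_eq_fun hms measurable_const).compl
  refine ae_mem_of_ae_add_linearMap_mem (μ := (volume : Measure ℝ)) (ν := (volume : Measure E))
    ((LinearMap.id : ℝ →ₗ[ℝ] ℝ).smulRight (ev 2)) hs ?_
  intro y
  by_cases hy : 0 < mm y
  · have h1 : {u : ℝ | ¬ (y + ((LinearMap.id : ℝ →ₗ[ℝ] ℝ).smulRight (ev 2)) u ∈
        {x : E | 0 < mm x → ∀ k : ℤ, sig x ≠ k})} ⊆
        range (fun k : ℤ => ((k : ℝ) - sig y) / mm y) := by
      intro u hu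
      simp only [LinearMap.smulRight_apply, LinearMap.id_coe, id_eq, Set.mem_ofPred_eq,
        Classical.not_imp, not_forall, not_not, mm_line2, sig_line2] at hu
      obtain ⟨-, k, hk⟩ := hu
      refine ⟨k, ?_⟩
      simp only
      rw [div_eq_iff hy.ne']
      linarith
    rw [ae_iff]
    exact measure_mono_null h1 ((countable_range _).measure_zero _)
  · refine Eventually.of_forall fun u => ?_
    simp only [LinearMap.smulRight_apply, LinearMap.id_coe, id_eq, Set.mem_ofPred_eq]
    intro h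
    rw [mm_line2] at h
    exact absurd h hy

end JacAux

open JacAux in
theorem jac (hW : WaveSpec) (hL : LipSpec) : JacSpec := by
  unfold JacSpec
  rw [ae_restrict_iff' isOpen_Om.measurableSet]
  have h1 := LipschitzOnWith.ae_differentiableWithinAt_of_mem (μ := (volume : Measure E)) hL
  filter_upwards [h1, ae_ne, ae_sig] with x hx1 hx2 hx3 hx
  have hd : DifferentiableAt ℝ ff x :=
    (hx1 hx).differentiableAt (isOpen_Om.mem_nhds hx)
  have hm := mm_pos hx
  have hk := hx3 hm
  have hdp : 0 < dd x := lt_of_lt_of_le (abs_pos.2 hx2) (dd_ge x)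
  refine ⟨hd, mul_pos hm (lt_max_of_lt_left hdp), ?_⟩
  have hF := hd.hasFDerivAt
  rcases lt_trichotomy (sig x) 0 with hs | hs | hs
  · rw [case_neg hW hF hx2 hs, max_eq_right (lt_of_sig_neg hx2 hs).le]
  · exact absurd hs (by simpa using hk 0)
  · rw [case_pos hW hF hx2 hk hs, max_eq_left (lt_of_sig_pos hx2 hs).le]

end Pool.Agent.Lib.MP_8dcfde_an
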