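import Pool.Agent.Lib.MP_8dcfde_an.Spec

/-!
# MP_8dcfde_an: the map `ff` is Lipschitz on `Om`
-/

set_option autoImplicit false

namespace Pool.Agent.Lib.MP_8dcfde_an

open MeasureTheory Set

/-! ### real variable estimates -/

theorem lip_log {u v : ℝ} (hu : 0 < u) (hv : 0 < v) :
    min u v * |Real.log u - Real.log v| ≤ |u - v| := by
  have key : ∀ a b : ℝ, 0 < a → a ≤ b → a * |Real.log a - Real.log b| ≤ |a - b| := by
    intro a b ha hab
    have hb : 0 < b := ha.trans_le hab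
    have h1 : Real.log a ≤ Real.log b := Real.log_le_log ha hab
    rw [abs_sub_comm, abs_of_nonneg (by linarith), abs_sub_comm, abs_of_nonneg (by linarith)]
    have h2 : Real.log (b / a) ≤ b / a - 1 := Real.log_le_sub_one_of_pos (div_pos hb ha)
    rw [Real.log_div hb.ne' ha.ne'] at h2
    calc a * (Real.log b - Real.log a) ≤ a * (b / a - 1) := mul_le_mul_of_nonneg_left h2 ha.le
      _ = b - a := by field_simp
  rcases le_total u v with h | h
  · rw [min_eq_left h]
    exact key u v hu h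
  · rw [min_eq_right h, abs_sub_comm (Real.log u), abs_sub_comm u]
    exact key v u hv h

theorem lip_mul_mm {ρ : ℝ} (h0 : 0 < ρ) : ρ * (1 - Real.log ρ) ≤ 1 := by
  have h1 : Real.log (1 / ρ) ≤ 1 / ρ - 1 := Real.log_le_sub_one_of_pos (by positivity)
  rw [Real.log_div one_ne_zero h0.ne', Real.log_one, zero_sub] at h1
  calc ρ * (1 - Real.log ρ) ≤ ρ * (1 / ρ) := mul_le_mul_of_nonneg_left (by linarith) h0.le
    _ = 1 := by field_simp

theorem lip_mm_ge {ρ : ℝ} (h0 : 0 ≤ ρ) (h1 : ρ ≤ 1) : 1 ≤ 1 - Real.log ρ := by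
  have := Real.log_nonpos h0 h1
  linarith

theorem lip_A {ρ ρ' t t' h : ℝ} (h0 : 0 < ρ) (h0' : 0 < ρ') (h1' : ρ' ≤ 1)
    (ht : 0 ≤ t) (ht1 : t ≤ 1) (hρ : |ρ - ρ'| ≤ 2 * h) (htt : |t - t'| ≤ h) :
    min ρ ρ' * |(1 - Real.log ρ) * t - (1 - Real.log ρ') * t'| ≤ 4 * h := by
  have hh : 0 ≤ h := (abs_nonneg _).trans htt
  have hmin : 0 < min ρ ρ' := lt_min h0 h0'
  have hm' := lip_mm_ge h0'.le h1'
  have e1 : (1 - Real.log ρ) * t - (1 - Real.log ρ') * t' =
      (Real.log ρ' - Real.log ρ) * t + (1 - Real.log ρ') * (t - t') := by ring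
  have e2 : |(1 - Real.log ρ) * t - (1 - Real.log ρ') * t'| ≤
      |Real.log ρ - Real.log ρ'| + (1 - Real.log ρ') * |t - t'| := by
    rw [e1]
    refine (abs_add_le _ _).trans ?_
    rw [abs_mul, abs_mul, abs_of_nonneg ht, abs_of_nonneg (by linarith : 0 ≤ 1 - Real.log ρ'),
      abs_sub_comm (Real.log ρ')]
    have := mul_le_of_le_one_right (abs_nonneg (Real.log ρ - Real.log ρ')) ht1
    linarith
  have e3 := lip_log h0 h0'
  have e4 : min ρ ρ' * ((1 - Real.log ρ') * |t - t'|) ≤ h := by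
    have e5 : min ρ ρ' * (1 - Real.log ρ') ≤ 1 :=
      (mul_le_mul_of_nonneg_right (min_le_right _ _) (by linarith)).trans (lip_mul_mm h0')
    calc min ρ ρ' * ((1 - Real.log ρ') * |t - t'|) = (min ρ ρ' * (1 - Real.log ρ')) * |t - t'| := by
          ring
      _ ≤ 1 * |t - t'| := mul_le_mul_of_nonneg_right e5 (abs_nonneg _)
      _ ≤ h := by linarith
  calc min ρ ρ' * |(1 - Real.log ρ) * t - (1 - Real.log ρ') * t'|
      ≤ min ρ ρ' * (|Real.log ρ - Real.log ρ'| + (1 - Real.log ρ') * |t - t'|) :=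
        mul_le_mul_of_nonneg_left e2 hmin.le
    _ ≤ 4 * h := by
        rw [mul_add]
        linarith

theorem lip_exp {u v : ℝ} (hu : 0 ≤ u) (hv : 0 ≤ v) :
    |Real.exp (-u) - Real.exp (-v)| ≤ |u - v| := by
  have key : ∀ a b : ℝ, 0 ≤ a → a ≤ b → |Real.exp (-a) - Real.exp (-b)| ≤ |a - b| := by
    intro a b ha hab
    have h1 : Real.exp (-b) ≤ Real.exp (-a) := Real.exp_le_exp.2 (by linarith)
    rw [abs_of_nonneg (by linarith), abs_sub_comm, abs_of_nonneg (by linarith)]
    have h2 : Real.exp (-b) = Real.exp (-a) * Real.exp (-(b - a)) := by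
      rw [← Real.exp_add]
      congr 1
      ring
    have h3 : -(b - a) + 1 ≤ Real.exp (-(b - a)) := Real.add_one_le_exp _
    have h4 : Real.exp (-a) ≤ 1 := Real.exp_le_one_iff.2 (by linarith)
    have h5 : 0 < Real.exp (-a) := Real.exp_pos _
    rw [h2]
    calc Real.exp (-a) - Real.exp (-a) * Real.exp (-(b - a))
        = Real.exp (-a) * (1 - Real.exp (-(b - a))) := by ring
      _ ≤ Real.exp (-a) * (b - a) := mul_le_mul_of_nonneg_left (by linarith) h5.le
      _ ≤ 1 * (b - a) := mul_le_mul_of_nonneg_right h4 (by linarith)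
      _ = b - a := one_mul _
  rcases le_total u v with h | h
  · exact key u v hu h
  · rw [abs_sub_comm (Real.exp (-u)), abs_sub_comm u]
    exact key v u hv h

theorem lip_prod {d d' g g' : ℝ} (h0 : 0 ≤ d) (h0' : 0 ≤ d') (hg : |g| ≤ 1) (hg' : |g'| ≤ 1) :
    |d * g - d' * g'| ≤ |d - d'| + min d d' * |g - g'| := by
  rcases le_total d d' with h | h
  · rw [min_eq_left h]
    have e : d * g - d' * g' = (d - d') * g' + d * (g - g') := by ring
    rw [e]
    refine (abs_add_le _ _).trans ?_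
    rw [abs_mul, abs_mul, abs_of_nonneg h0]
    have := mul_le_of_le_one_right (abs_nonneg (d - d')) hg'
    linarith
  · rw [min_eq_right h]
    have e : d * g - d' * g' = (d - d') * g + d' * (g - g') := by ring
    rw [e]
    refine (abs_add_le _ _).trans ?_
    rw [abs_mul, abs_mul, abs_of_nonneg h0']
    have := mul_le_of_le_one_right (abs_nonneg (d - d')) hg
    linarith

theorem lip_B {ρ ρ' t t' h : ℝ} (h0 : 0 ≤ ρ) (h0' : 0 ≤ ρ') (h1 : ρ ≤ 1) (h1' : ρ' ≤ 1)
    (ht : 0 ≤ t) (ht' : 0 ≤ t') (ht1 : t ≤ 1) (hρ : |ρ - ρ'| ≤ 2 * h)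
    (htt : |t - t'| ≤ h) :
    |ρ * Real.exp (-((1 - Real.log ρ) * t)) - ρ' * Real.exp (-((1 - Real.log ρ') * t'))| ≤
      6 * h := by
  have hh : 0 ≤ h := (abs_nonneg _).trans htt
  have hu : 0 ≤ (1 - Real.log ρ) * t := mul_nonneg (by linarith [lip_mm_ge h0 h1]) ht
  have hv : 0 ≤ (1 - Real.log ρ') * t' := mul_nonneg (by linarith [lip_mm_ge h0' h1']) ht'
  have hub : Real.exp (-((1 - Real.log ρ) * t)) ≤ 1 := Real.exp_le_one_iff.2 (by linarith)
  have hvb : Real.exp (-((1 - Real.log ρ') * t')) ≤ 1 := Real.exp_le_one_iff.2 (by linarith)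
  have hup := Real.exp_pos (-((1 - Real.log ρ) * t))
  have hvp := Real.exp_pos (-((1 - Real.log ρ') * t'))
  have e1 := lip_prod h0 h0' (by rw [abs_of_pos hup]; exact hub) (by rw [abs_of_pos hvp]; exact hvb)
  have e2 := lip_exp hu hv
  have hmin : 0 ≤ min ρ ρ' := le_min h0 h0'
  have e3 : min ρ ρ' * |(1 - Real.log ρ) * t - (1 - Real.log ρ') * t'| ≤ 4 * h := by
    rcases h0.lt_or_eq with h2 | h2
    · rcases h0'.lt_or_eq with h3 | h3
      · exact lip_A h2 h3 h1' ht ht1 hρ htt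
      · rw [← h3, min_eq_right h0, zero_mul]
        linarith
    · rw [← h2, min_eq_left h0', zero_mul]
      linarith
  have e4 := mul_le_mul_of_nonneg_left e2 hmin
  linarith

theorem lip_max {a b : ℝ} : |max 0 a - max 0 b| ≤ |a - b| := by
  have := abs_max_sub_max_le_abs a b 0
  rwa [max_comm a, max_comm b] at this

theorem lip_C {ρ ρ' d d' t t' h : ℝ} (hd : 0 ≤ d) (hd' : 0 ≤ d') (hdρ : d ≤ ρ) (hdρ' : d' ≤ ρ')
    (h1' : ρ' ≤ 1) (ht : 0 ≤ t) (ht1 : t ≤ 1) (hρ : |ρ - ρ'| ≤ 2 * h)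
    (hdd : |d - d'| ≤ 2 * h) (htt : |t - t'| ≤ h) :
    min d d' * |max 0 (Real.log d - Real.log ρ + (1 - Real.log ρ) * t) -
      max 0 (Real.log d' - Real.log ρ' + (1 - Real.log ρ') * t')| ≤ 8 * h := by
  have hh : 0 ≤ h := (abs_nonneg _).trans htt
  rcases hd.lt_or_eq with h2 | h2
  · rcases hd'.lt_or_eq with h3 | h3
    · have hρ0 : 0 < ρ := h2.trans_le hdρ
      have hρ0' : 0 < ρ' := h3.trans_le hdρ'
      have e1 := lip_A hρ0 hρ0' h1' ht ht1 hρ htt
      have e2 := lip_log hρ0 hρ0'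
      have e3 := lip_log h2 h3
      have hmin : min d d' ≤ min ρ ρ' := min_le_min hdρ hdρ'
      have hmin0 : 0 < min d d' := lt_min h2 h3
      have e4 : |max 0 (Real.log d - Real.log ρ + (1 - Real.log ρ) * t) -
          max 0 (Real.log d' - Real.log ρ' + (1 - Real.log ρ') * t')| ≤
          |Real.log d - Real.log d'| + |Real.log ρ - Real.log ρ'| +
            |(1 - Real.log ρ) * t - (1 - Real.log ρ') * t'| := by
        refine lip_max.trans ?_
        have e5 : Real.log d - Real.log ρ + (1 - Real.log ρ) * t -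
            (Real.log d' - Real.log ρ' + (1 - Real.log ρ') * t') =
            (Real.log d - Real.log d') - (Real.log ρ - Real.log ρ') +
            ((1 - Real.log ρ) * t - (1 - Real.log ρ') * t') := by ring
        rw [e5]
        refine (abs_add_le _ _).trans ?_
        have := abs_sub (Real.log d - Real.log d') (Real.log ρ - Real.log ρ')
        linarith
      have e6 := mul_le_mul_of_nonneg_right hmin (abs_nonneg (Real.log ρ - Real.log ρ'))
      have e7 := mul_le_mul_of_nonneg_right hmin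
        (abs_nonneg ((1 - Real.log ρ) * t - (1 - Real.log ρ') * t'))
      calc min d d' * |max 0 (Real.log d - Real.log ρ + (1 - Real.log ρ) * t) -
          max 0 (Real.log d' - Real.log ρ' + (1 - Real.log ρ') * t')|
          ≤ min d d' * (|Real.log d - Real.log d'| + |Real.log ρ - Real.log ρ'| +
            |(1 - Real.log ρ) * t - (1 - Real.log ρ') * t'|) :=
            mul_le_mul_of_nonneg_left e4 hmin0.le
        _ ≤ 8 * h := by
            rw [mul_add, mul_add]
            linarith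
    · rw [← h3, min_eq_right hd, zero_mul]
      linarith
  · rw [← h2, min_eq_left hd', zero_mul]
    linarith

theorem lip_YY (u v u' v' : ℝ) : |YY u v - YY u' v'| ≤ |u - u'| + |v - v'| := by
  unfold YY
  have h1 : |(|u + v| - |u' + v'|)| ≤ |u - u'| + |v - v'| := by
    refine (abs_abs_sub_abs_le _ _).trans ?_
    have e : u + v - (u' + v') = (u - u') + (v - v') := by ring
    rw [e]
    exact abs_add_le _ _
  have h2 : |(|u - v| - |u' - v'|)| ≤ |u - u'| + |v - v'| := by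
    refine (abs_abs_sub_abs_le _ _).trans ?_
    have e : u - v - (u' - v') = (u - u') - (v - v') := by ring
    rw [e]
    exact abs_sub _ _
  rw [abs_le] at h1 h2 ⊢
  constructor <;> linarith [h1.1, h1.2, h2.1, h2.2]

theorem lip_norm (z : E) : ‖z‖ ≤ |z 0| + |z 1| + |z 2| := by
  rw [EuclideanSpace.norm_eq, Fin.sum_univ_three]
  refine Real.sqrt_le_iff.2 ⟨by positivity, ?_⟩
  simp only [Real.norm_eq_abs]
  have := abs_nonneg (z 0)
  have := abs_nonneg (z 1)
  have := abs_nonneg (z 2)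
  nlinarith

theorem lip_coord (P Q : E) (i : Fin 3) : |P i - Q i| ≤ dist P Q := by
  rw [dist_eq_norm]
  have := PiLp.norm_apply_le (P - Q) i
  simpa using this

/-- **Lip**. -/
theorem lip (hW : WaveSpec) : LipSpec := by
  obtain ⟨hk, ht, hkt, -, -, -⟩ := hW
  have hk1 : ∀ s, |kap s| ≤ 1 := fun s => by
    have := hkt s
    have := abs_nonneg (tau s)
    linarith
  have ht1 : ∀ s, |tau s| ≤ 1 := fun s => by
    have := hkt s
    have := abs_nonneg (kap s)
    linarith
  apply LipschitzOnWith.of_dist_le_mul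
  intro P hP Q hQ
  obtain ⟨hP0, hP1, hP2, hP3⟩ := hP
  obtain ⟨hQ0, hQ1, hQ2, hQ3⟩ := hQ
  set h := dist P Q with hh
  have hh0 : 0 ≤ h := dist_nonneg
  have c0 := lip_coord P Q 0
  have c1 := lip_coord P Q 1
  have c2 := lip_coord P Q 2
  rw [← hh] at c0 c1 c2
  -- `rho`
  have hρ : |rho P - rho Q| ≤ 2 * h := by
    unfold rho
    have e : |P 0| + |P 1| - (|Q 0| + |Q 1|) = (|P 0| - |Q 0|) + (|P 1| - |Q 1|) := by ring
    rw [e]
    have e1 := abs_abs_sub_abs_le (P 0) (Q 0)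
    have e2 := abs_abs_sub_abs_le (P 1) (Q 1)
    have e3 := abs_add_le (|P 0| - |Q 0|) (|P 1| - |Q 1|)
    linarith
  have hρP : 0 ≤ rho P := add_nonneg (abs_nonneg _) (abs_nonneg _)
  have hρQ : 0 ≤ rho Q := add_nonneg (abs_nonneg _) (abs_nonneg _)
  have hρP1 : rho P ≤ 1 := by
    unfold rho
    linarith
  have hρQ1 : rho Q ≤ 1 := by
    unfold rho
    linarith
  -- `dd`
  have hdd : |dd P - dd Q| ≤ 2 * h := by
    unfold dd
    have e : |P 1| + Metric.infDist (P 0) ZZ - (|Q 1| + Metric.infDist (Q 0) ZZ) =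
      (|P 1| - |Q 1|) + (Metric.infDist (P 0) ZZ - Metric.infDist (Q 0) ZZ) := by ring
    rw [e]
    have e1 := abs_abs_sub_abs_le (P 1) (Q 1)
    have e2 : |Metric.infDist (P 0) ZZ - Metric.infDist (Q 0) ZZ| ≤ |P 0 - Q 0| := by
      have e4 := (Metric.lipschitz_infDist_pt ZZ).dist_le_mul (P 0) (Q 0)
      simpa [Real.dist_eq] using e4
    have e3 := abs_add_le (|P 1| - |Q 1|) (Metric.infDist (P 0) ZZ - Metric.infDist (Q 0) ZZ)
    linarith
  have hdd0 : ∀ R : E, 0 ≤ dd R := fun R => add_nonneg (abs_nonneg _) Metric.infDist_nonneg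
  have hddρ : ∀ R : E, dd R ≤ rho R := by
    intro R
    unfold dd rho
    have e : Metric.infDist (R 0) ZZ ≤ |R 0| := by
      have e1 := Metric.infDist_le_dist_of_mem (x := R 0) (show (0 : ℝ) ∈ ZZ from mem_insert _ _)
      simpa [Real.dist_eq] using e1
    linarith
  -- `lam`, `sig`
  have hlam : |lam P - lam Q| ≤ 6 * h := by
    unfold lam mm
    exact lip_B hρP hρQ hρP1 hρQ1 hP2.le hQ2.le hP3.le hρ c2
  have hsig : min (dd P) (dd Q) * |max 0 (sig P) - max 0 (sig Q)| ≤ 8 * h := by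
    unfold sig mm
    exact lip_C (hdd0 P) (hdd0 Q) (hddρ P) (hddρ Q) hρQ1 hP2.le hP3.le hρ hdd c2
  have hmin0 : 0 ≤ min (dd P) (dd Q) := le_min (hdd0 P) (hdd0 Q)
  have hD : ∀ g : ℝ → ℝ, (∀ s, |g s| ≤ 1) → (∀ s s', |g s - g s'| ≤ |s - s'|) →
      |dd P * g (max 0 (sig P)) - dd Q * g (max 0 (sig Q))| ≤ 10 * h := by
    intro g hg1 hg
    have e1 := lip_prod (hdd0 P) (hdd0 Q) (hg1 (max 0 (sig P))) (hg1 (max 0 (sig Q)))
    have e2 := mul_le_mul_of_nonneg_left (hg (max 0 (sig P)) (max 0 (sig Q))) hmin0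
    linarith
  have haa : |aa P - aa Q| ≤ 10 * h := hD kap hk1 hk
  have hbb : |bb P - bb Q| ≤ 18 * h := by
    unfold bb
    have e1 := hD tau ht1 ht
    have e2 : |max (lam P - dd P) 0 - max (lam Q - dd Q) 0| ≤ 8 * h := by
      refine (abs_max_sub_max_le_abs _ _ _).trans ?_
      have e3 : lam P - dd P - (lam Q - dd Q) = (lam P - lam Q) - (dd P - dd Q) := by ring
      rw [e3]
      have := abs_sub (lam P - lam Q) (dd P - dd Q)
      linarith
    have e4 : dd P * tau (max 0 (sig P)) - max (lam P - dd P) 0 -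
        (dd Q * tau (max 0 (sig Q)) - max (lam Q - dd Q) 0) =
        (dd P * tau (max 0 (sig P)) - dd Q * tau (max 0 (sig Q))) -
        (max (lam P - dd P) 0 - max (lam Q - dd Q) 0) := by ring
    rw [e4]
    have := abs_sub (dd P * tau (max 0 (sig P)) - dd Q * tau (max 0 (sig Q)))
      (max (lam P - dd P) 0 - max (lam Q - dd Q) 0)
    linarith
  have hYY := lip_YY (P 1) (aa P) (Q 1) (aa Q)
  have e0 : (ff P - ff Q) 0 = P 0 - Q 0 := by simp [ff]
  have e1 : (ff P - ff Q) 1 = YY (P 1) (aa P) - YY (Q 1) (aa Q) := by simp [ff]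
  have e2 : (ff P - ff Q) 2 = bb P - bb Q := by simp [ff]
  have hn := lip_norm (ff P - ff Q)
  rw [e0, e1, e2, ← dist_eq_norm] at hn
  push_cast
  linarith

end Pool.Agent.Lib.MP_8dcfde_an
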