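import Pool.Agent.Lib.MP_8dcfde_an.Spec

set_option autoImplicit false

namespace Pool.Agent.Lib.MP_8dcfde_an

open MeasureTheory Set

lemma rr_pos (j : ℕ) : 0 < rr j := by unfold rr; positivity

lemma ff_zero_coord (x : E) : (ff x) 0 = x 0 := by simp [ff]
lemma ff_one_coord (x : E) : (ff x) 1 = YY (x 1) (aa x) := by simp [ff]
lemma ff_two_coord (x : E) : (ff x) 2 = bb x := by simp [ff]

lemma YY_zero_right (u : ℝ) : YY u 0 = 0 := by simp [YY]
lemma YY_zero_left (u : ℝ) : YY 0 u = 0 := by simp [YY]

lemma YY_eq_zero {u v : ℝ} (h : YY u v = 0) : u = 0 ∨ v = 0 := by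
  have h1 : |u + v| = |u - v| := by unfold YY at h; linarith
  rcases (abs_eq_abs.1 h1) with h2 | h2
  · right; linarith
  · left; linarith

lemma omit_ff (hW : WaveSpec) : OmitSpec := by
  obtain ⟨-, -, habs, hk0, ht0, -⟩ := hW
  refine ⟨?_, ?_, ?_⟩
  · intro j x hx h
    have h0 : x 0 = rr j := by
      have := congrArg (fun y : E => y 0) h
      simpa [ff] using this
    have h1 : YY (x 1) (aa x) = 0 := by
      have := congrArg (fun y : E => y 1) h
      simpa [ff] using this
    have h2 : bb x = 0 := by
      have := congrArg (fun y : E => y 2) h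
      simpa [ff] using this
    have hD : Metric.infDist (x 0) ZZ = 0 := by
      apply Metric.infDist_zero_of_mem
      rw [h0]
      exact Or.inr ⟨j, rfl⟩
    have hd : dd x = |x 1| := by unfold dd; rw [hD, add_zero]
    have hrho : 0 < rho x := by
      unfold rho
      have := rr_pos j
      rw [h0, abs_of_pos this]
      positivity
    have hlam : 0 < lam x := by unfold lam; positivity
    by_cases hx1 : x 1 = 0
    · have hd0 : dd x = 0 := by rw [hd, hx1, abs_zero]
      unfold bb at h2
      rw [hd0, zero_mul, sub_zero, max_eq_left hlam.le] at h2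
      linarith
    · have ha : aa x = 0 := (YY_eq_zero h1).resolve_left hx1
      have hdpos : 0 < dd x := by rw [hd]; exact abs_pos.2 hx1
      have hk : kap (max 0 (sig x)) = 0 := by
        unfold aa at ha
        rcases mul_eq_zero.1 ha with h | h
        · exact absurd h hdpos.ne'
        · exact h
      have hs : 0 < sig x := by
        by_contra hcon
        push Not at hcon
        rw [max_eq_left hcon, hk0] at hk
        exact one_ne_zero hk
      have ht : |tau (max 0 (sig x))| = 1 := by
        have := habs (max 0 (sig x))
        rw [hk, abs_zero, zero_add] at this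
        exact this
      have hlt : lam x ≤ dd x := by
        have h3 : Real.log (rho x) - mm x * x 2 < Real.log (dd x) := by
          unfold sig at hs; linarith
        have h4 : Real.log (lam x) < Real.log (dd x) := by
          unfold lam
          rw [Real.log_mul hrho.ne' (Real.exp_pos _).ne', Real.log_exp]
          linarith
        exact ((Real.log_lt_log_iff hlam hdpos).1 h4).le
      unfold bb at h2
      rw [max_eq_right (by linarith : lam x - dd x ≤ 0), sub_zero] at h2
      rcases mul_eq_zero.1 h2 with h | h
      · exact hdpos.ne' h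
      · rw [h, abs_zero] at ht
        exact zero_ne_one ht
  · refine ⟨by norm_num, by norm_num, ?_, ?_⟩
    · show (0:ℝ) < 1/2
      norm_num
    · show (1/2:ℝ) < 1
      norm_num
  · have hd : dd !₂[0, 0, 1/2] = 0 := by
      unfold dd
      have : Metric.infDist (0:ℝ) ZZ = 0 := Metric.infDist_zero_of_mem (Or.inl rfl)
      simpa using this
    have hl : lam !₂[0, 0, 1/2] = 0 := by
      unfold lam rho
      simp
    have hb : bb !₂[0, 0, 1/2] = 0 := by
      unfold bb; rw [hd, hl]; simp
    have ha : aa !₂[0, 0, 1/2] = 0 := by
      unfold aa; rw [hd]; simp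
    unfold ff
    rw [ha, hb, YY_zero_right]
    ext i
    fin_cases i <;> simp

end Pool.Agent.Lib.MP_8dcfde_an
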