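import Mathlib

/-!
# MP_8dcfde_an : an explicit non-open map of finite distortion with `K ∈ L^{n-1}`, `n = 3`

Coordinates of `x : E = EuclideanSpace ℝ (Fin 3)`: `x 0, x 1` (the horizontal plane) and `t = x 2`.
`Om = {|x 0| < 1/4, |x 1| < 1/4, 0 < x 2 < 1}`.  `Z = {0} ∪ {rr j}`, `rr j = 2^{-2^{j+2}}`.

* `rho = |x 0| + |x 1|`, `mm = 1 - log rho`, `dd = |x 1| + dist (x 0, Z)` (so `|x 1| ≤ dd ≤ rho`),
* `lam = rho * exp (-(mm * t))`, `sig = log dd - log rho + mm * t` (`= log (dd/lam)` when `dd > 0`),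
* `kap` and `tau` the triangle waves of period `4` (`kap` like cosine, `tau` like sine, `|kap| + |tau| = 1`),
* `aa = dd * kap (max 0 sig)`, `bb = dd * tau (max 0 sig) - max (lam - dd) 0`,
* `YY u v = (|u + v| - |u - v|) / 2 = sign (u v) * min |u| |v|`,
* `ff x = (x 0, YY (x 1) (aa x), bb x)`.

Facts (each is one module, proved independently; the proofs are written in the docstrings of the
`Prop`s below):
`Wave` (elementary facts on `kap, tau`), `Lip` (`ff` is Lipschitz on `Om`),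
`Jac` (a.e. `det Dff = mm * max dd lam > 0`), `Int` (`1/(mm * max dd lam) ∈ L²(Om)`),
`Weak` (general: Lipschitz maps satisfy the weak derivative identity), `Final` (assembly, omitted points).
-/

set_option autoImplicit false

namespace Pool.Agent.Lib.MP_8dcfde_an

open MeasureTheory Set

/-- The ambient space. -/
abbrev E : Type := EuclideanSpace ℝ (Fin 3)

/-- The domain: an open box. -/
def Om : Set E := {x | |x 0| < 1/4 ∧ |x 1| < 1/4 ∧ 0 < x 2 ∧ x 2 < 1}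

/-- The radii `2^{-2^{j+2}}`; `rr 0 = 1/16`, `rr (j+1) = rr j ^ 2`. -/
noncomputable def rr (j : ℕ) : ℝ := (1/2 : ℝ) ^ (2 ^ (j + 2))

/-- The zero set `{0} ∪ {rr j}` of the distance `dd` on the axis `x 1 = 0`. -/
def ZZ : Set ℝ := insert 0 (range rr)

/-- The `ℓ¹` distance to the origin in the horizontal plane. -/
noncomputable def rho (x : E) : ℝ := |x 0| + |x 1|

/-- The (logarithmic) number of windings. -/
noncomputable def mm (x : E) : ℝ := 1 - Real.log (rho x)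

/-- The `ℓ¹` distance in the horizontal plane to `ZZ × {0}`. -/
noncomputable def dd (x : E) : ℝ := |x 1| + Metric.infDist (x 0) ZZ

/-- The horn radius. -/
noncomputable def lam (x : E) : ℝ := rho x * Real.exp (-(mm x * x 2))

/-- The phase. -/
noncomputable def sig (x : E) : ℝ := Real.log (dd x) - Real.log (rho x) + mm x * x 2

/-- Triangle wave, `1 - dist (s, 4ℤ)` (like cosine). -/
noncomputable def kap (s : ℝ) : ℝ := 1 - |s - 4 * (round (s / 4) : ℝ)|

/-- Triangle wave (like sine). -/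
noncomputable def tau (s : ℝ) : ℝ := kap (s - 1)

/-- `YY u v = sign (u v) * min |u| |v|`. -/
noncomputable def YY (u v : ℝ) : ℝ := (|u + v| - |u - v|) / 2

noncomputable def aa (x : E) : ℝ := dd x * kap (max 0 (sig x))

noncomputable def bb (x : E) : ℝ := dd x * tau (max 0 (sig x)) - max (lam x - dd x) 0

/-- The map. -/
noncomputable def ff (x : E) : E := !₂[x 0, YY (x 1) (aa x), bb x]

/-- **Wave** (elementary).  The triangle waves are `1`-Lipschitz, `|kap s| + |tau s| = 1`,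
`kap 0 = 1`, `tau 0 = 0`, and at a non-integer `s` they are both non-zero and differentiable with
`kap' = - sign tau`, `tau' = sign kap`.

Proof.  Lipschitz: `|s - 4 round(s/4)|` is the norm of `s` in `AddCircle 4` (`AddCircle.norm_eq`), and
`|‖a‖ - ‖b‖| ≤ ‖a - b‖`, `‖((s - s' : ℝ) : AddCircle 4)‖ ≤ |s - s'|`; or directly.
If `4k - 2 ≤ s < 4k + 2` (`k : ℤ`) then `round (s/4) = k` (`round_eq`, `Int.floor_eq_iff`), so
`kap s = 1 - |s - 4k|`.  For a non-integer `s` let `n = ⌊s⌋`, write `n = 4k + i`, `i ∈ {-2,-1,0,1}`; on the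
open interval `(n, n+1)` both `kap` and `tau` are affine:
`i = 0`: `kap = 1 - u`, `tau = u` with `u = s - n`; `i = 1`: `kap = -u`, `tau = 1 - u`;
`i = -2`: `kap = u - 1`, `tau = -u`; `i = -1`: `kap = u`, `tau = u - 1`.
(Sign of `0 < u < 1` expressions gives the claim; `HasDerivAt` of an affine function, eventually equal.)
The identity `|kap| + |tau| = 1` follows the same way with `n ≤ s < n+1`. -/
def WaveSpec : Prop :=
  (∀ s s' : ℝ, |kap s - kap s'| ≤ |s - s'|) ∧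
  (∀ s s' : ℝ, |tau s - tau s'| ≤ |s - s'|) ∧
  (∀ s : ℝ, |kap s| + |tau s| = 1) ∧ kap 0 = 1 ∧ tau 0 = 0 ∧
  (∀ s : ℝ, (∀ k : ℤ, s ≠ k) → kap s ≠ 0 ∧ tau s ≠ 0 ∧
    HasDerivAt kap (-(SignType.sign (tau s) : ℝ)) s ∧
    HasDerivAt tau (SignType.sign (kap s) : ℝ) s)

/-- **Lip**.  `ff` is Lipschitz on `Om` (constant `30`).

Proof.  Let `P, Q ∈ Om`, `h = dist P Q`, so `|P i - Q i| ≤ h`.  Indices `P,Q` denote values.
* `|rho_P - rho_Q| ≤ 2h`, `infDist` is `1`-Lipschitz, `|dd_P - dd_Q| ≤ 2h`, `0 ≤ dd ≤ rho < 1/2`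
  (`infDist (x 0) ZZ ≤ |x 0 - 0|`), `mm ≥ 1 > 0` if `rho > 0` (in fact always on `Om`, `log 0 = 0`).
* (K1) `min u v * |log u - log v| ≤ |u - v|` for `u, v > 0` (`Real.log_le_sub_one_of_pos` /
  `Real.add_one_le_exp`); (K2) `u * |log u| ≤ 1` for `0 < u ≤ 1` (`Real.abs_log_mul_self_lt`).
* (A) If `rho_P, rho_Q > 0`: `min rho_P rho_Q * |mm_P t_P - mm_Q t_Q| ≤ 4h`, because
  `mm_P t_P - mm_Q t_Q = (mm_P - mm_Q) t_P + mm_Q (t_P - t_Q)`, `|mm_P - mm_Q| = |log rho_P - log rho_Q|`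
  and `rho_Q mm_Q ≤ 2`.
* (B) `|lam_P - lam_Q| ≤ 6h`: if both `rho > 0` then, with `u = mm_P t_P ≥ 0`, `v = mm_Q t_Q ≥ 0`,
  `|rho_P e^{-u} - rho_Q e^{-v}| ≤ |rho_P - rho_Q| + min rho_P rho_Q * |u - v|` (two cases according to
  which of `rho_P, rho_Q` is smaller; `|e^{-u} - e^{-v}| ≤ |u - v|`); if `rho_P = 0` then `lam_P = 0` and
  `lam_Q ≤ rho_Q ≤ 2h`.
* (C) `min dd_P dd_Q * |max 0 sig_P - max 0 sig_Q| ≤ 8h`: trivial if the min is `0`; otherwise
  `dd, rho > 0`, `|max 0 σ - max 0 σ'| ≤ |σ - σ'|`, use (K1) for `dd`, (K1) for `rho`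
  (`min dd ≤ min rho`), and (A).
* (D) if `|g| ≤ 1` and `g` is `1`-Lipschitz (`g = kap, tau`; use `WaveSpec`), then
  `|dd_P g(s_P) - dd_Q g(s_Q)| ≤ |dd_P - dd_Q| + min dd_P dd_Q * |g(s_P) - g(s_Q)| ≤ 10h`.
* so `|aa_P - aa_Q| ≤ 10h`, `|bb_P - bb_Q| ≤ 10h + 8h`, `|YY u v - YY u' v'| ≤ |u-u'| + |v-v'|`, and
  `dist (ff P) (ff Q) ≤ h + 11h + 18h`. -/
def LipSpec : Prop := LipschitzOnWith 30 ff Om

/-- **Jac**.  At almost every point of `Om` the map `ff` is differentiable with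
`det Dff = mm * max dd lam`, which is `> 0`.

Proof.  (0) Null sets. `{x | x 1 = 0}` is null.  `{x ∈ Om | x 1 ≠ 0, ∃ k : ℤ, sig x = k}` is null: on
every line `u ↦ x + u • e₂` (`e₂` = third unit vector) `sig` is affine in `u` with slope `mm > 0`, so this set
meets the line in a countable set; use `ae_mem_of_ae_add_linearMap_mem`
(Mathlib.MeasureTheory.Measure.Haar.Disintegration) with `L u = u • e₂` (`sig`, `dd` are measurable).
`ff` is differentiable a.e. on the open set `Om` (`LipSpec` and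
`LipschitzOnWith.ae_differentiableWithinAt_of_mem`).
(1) Fix `x ∈ Om` outside these null sets, `L = fderiv ℝ ff x`, `M i j = (L e_j) i`.  Row `0` of `M` is
`(1,0,0)`, so `det L = M 1 1 * M 2 2 - M 1 2 * M 2 1` (`Matrix.det_fin_three`, `LinearMap.det_toMatrix`).
Note `dd ≥ |x 1| > 0`, `rho > 0`, `mm > 0`.  All of `dd, rho, mm, lam, sig, aa, bb` are continuous at `x`.
`sig x ≠ 0` since it is not an integer.
(2) Case `sig x > 0` (i.e. `dd > lam`).  Near `x`: `aa = dd * kap sig`, `bb = dd * tau sig`, and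
`|aa| + |bb| = dd`; along `e₂`, `dd` is constant and `sig (x + u e₂) = sig x + mm u`, so
`∂_t bb = dd * mm * sign (kap sig)`, `∂_t aa = - dd * mm * sign (tau sig)`; `sign aa = sign kap`,
`sign bb = sign tau`, both non-zero.
 (2a) `|x 1| ≤ |aa x|`.  Put `ε = sign (aa x)`, `η = sign (x 1)`.  Near `x` one has
 `ε η (ff y) 1 = min |y 1| |aa y| ≤ |y 1| = η y 1` with equality at `x`; so `y ↦ η y 1 - ε η (ff y) 1` has a
 local minimum at `x`, its derivative vanishes (`IsLocalMin.fderiv_eq_zero`), so `M 1 1 = ε`, `M 1 2 = 0`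
 and `det = ε * (dd * mm * ε) = mm * dd`.
 (2b) `|aa x| < |x 1|`.  Near `x`, `(ff y) 1 = η aa y`.  So `aa` is differentiable at `x` with derivative
 `η L₁`, and `dd = sign(aa x) aa + sign(bb x) bb` near `x`, so `dd` is differentiable at `x`; its derivative
 along `e₁` is `η` (as `dd (x + u e₁) = |x 1 + u| + const`).  Hence
 `η = sign(aa) η M 1 1 + sign(bb) M 2 1`, and with `M 1 2 = - η dd mm sign(bb)`, `M 2 2 = dd mm sign(aa)`:
 `det = dd mm (sign(aa) M 1 1 + η sign(bb) M 2 1) = dd mm η * η = mm * dd`.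
(3) Case `sig x < 0` (i.e. `dd < lam`).  Near `x`: `aa = dd`, `bb = dd - lam` and `|x 1| ≤ dd = |aa|`; as in
 (2a) with `ε = 1`: `M 1 1 = 1`, `M 1 2 = 0`; `M 2 2 = - ∂_t lam = mm * lam`. So `det = mm * lam`. -/
def JacSpec : Prop :=
  ∀ᵐ x ∂(volume.restrict Om), DifferentiableAt ℝ ff x ∧ 0 < mm x * max (dd x) (lam x) ∧
    LinearMap.det (fderiv ℝ ff x).toLinearMap = mm x * max (dd x) (lam x)

/-- **Int**.  `1 / (mm * max dd lam)` is square integrable on `Om`.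

Proof.  Everything is measurable.  Work at `x ∈ Om` with `x 1 ≠ 0` (a.e.); `0 < rho < 1/2`,
`mm ≥ 1`, `dd > 0`.  Since `0 < x 2 < 1`: `lam ≥ rho * exp (-mm) = rho^2 / e ≥ rho^2/3`.
Let `δ_j(x) = |x 0 - rr j| + |x 1|`.
(1) As `infDist (x 0) ZZ < infDist (x 0) ZZ + dd`, there is `z ∈ ZZ` with `|x 1| + |x 0 - z| < 2 dd`
(`Metric.infDist_lt_iff`).  If `z = 0`: `rho ≤ 2 dd`.  If `z = rr j` and not
`rr j / 2 ≤ rho ≤ 2 rr j` then `δ_j ≥ |rho - rr j| ≥ rho/2`, so `rho ≤ 4 dd`.  Hence always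
`(mm * max dd lam)⁻² ≤ 16 (mm rho)⁻² + Σ_j 1[rr j / 2 ≤ rho ≤ 2 rr j] * 4 (mm * max δ_j (rho²/3))⁻²`.
(2) If `2^{-k-1} ≤ rho < 2^{-k}` then `mm ≥ 1 + k log 2 ≥ (k+1)/2`, so
`16 (mm rho)⁻² ≤ 256 * 4^k/(k+1)²`; the box `{|x 0|, |x 1| ≤ 2^{-k}, 0 < x 2 < 1}` has volume
`4 * 4^{-k}`; so the first term has integral `≤ Σ_k 1024/(k+1)² < ∞`.
(3) If `rr j / 2 ≤ rho ≤ 2 rr j` then `mm ≥ 1 - log 2 + 2^{j+2} log 2 ≥ 2^{j+1}`, `rho²/3 ≥ rr j ²/12 =: μ`,
`δ_j ≤ rho + rr j ≤ 4 rr j =: L`.  With `I = 2^{j+2} + 5` one has `2^{-I} L ≤ 2 μ`, and for `δ ≤ L`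
`(max δ μ)⁻² ≤ Σ_{i ≤ I} 4^{i+1}/L² * 1[δ ≤ 2^{-i} L]` (take the largest `i ≤ I` with `δ ≤ 2^{-i} L`).
The set `{δ_j ≤ 2^{-i} L, 0 < x 2 < 1}` is contained in a box of volume `4 (2^{-i} L)²`.  So the `j`-th
term has integral at most `4 * 4^{-(j+1)} * 16 (I+1)`, which is summable in `j`. -/
def IntSpec : Prop :=
  MemLp (fun x : E => (mm x * max (dd x) (lam x))⁻¹) 2 (volume.restrict Om)

/-- **Weak** (general).  A map that is Lipschitz on an open set satisfies the weak derivative identity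
with its (a.e. defined) classical derivative.

Proof.  Extend `f` from `Ω` to a globally Lipschitz `g : E → E`
(`LipschitzOnWith.extend_finite_dimension`); on the open set `Ω` one has `g = f` and
`fderiv ℝ g = fderiv ℝ f`.  Since `φ` and `fderiv ℝ φ` vanish outside `tsupport φ ⊆ Ω`, both integrals over
`Ω` equal the integrals over `E` with `g` in place of `f`.  For each coordinate `i` apply
`LipschitzWith.integral_lineDeriv_mul_eq` (Rademacher file; `φ` is Lipschitz, being `C¹` with compact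
support: `ContDiff.lipschitzWith_of_hasCompactSupport`), with `lineDeriv = fderiv · v` where differentiable
(`g` a.e. by `LipschitzWith.ae_differentiableAt`). Move from coordinates to vectors by
`integral_congr`/`ContinuousLinearMap.integral_comp_comm` (`EuclideanSpace.proj i`), all integrands being
integrable (bounded, measurable, compact support). -/
def WeakSpec : Prop :=
  ∀ (Ω : Set E) (_ : IsOpen Ω) (f : E → E) (C : NNReal) (_ : LipschitzOnWith C f Ω)
    (φ : E → ℝ), ContDiff ℝ ((⊤ : ℕ∞) : WithTop ℕ∞) φ → HasCompactSupport φ → tsupport φ ⊆ Ω →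
    ∀ v : E, ∫ x in Ω, (fderiv ℝ φ x v) • f x = - ∫ x in Ω, φ x • (fderiv ℝ f x) v

/-- **Omit**.  The values `(rr j, 0, 0)` are omitted on `Om`, while `ff (0,0,1/2) = 0`.

Proof.  If `ff x = (rr j,0,0)` then `x 0 = rr j`, `infDist = 0`, `dd = |x 1|`, `rho > 0`.  If `x 1 = 0`:
`dd = 0`, `bb = - lam < 0`.  If `x 1 ≠ 0`: `YY (x 1) (aa x) = 0` forces `aa x = 0`, so
`kap (max 0 sig) = 0`, `|tau| = 1`, `max 0 sig ≠ 0` (`kap 0 = 1`), so `sig > 0`, i.e. `lam < dd` and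
`bb = ± dd ≠ 0`. -/
def OmitSpec : Prop :=
  (∀ j : ℕ, ∀ x ∈ Om, ff x ≠ !₂[rr j, 0, 0]) ∧
  (!₂[0, 0, 1/2] : E) ∈ Om ∧ ff !₂[0, 0, 1/2] = 0

end Pool.Agent.Lib.MP_8dcfde_an
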