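import Pool.Agent.Lib.MP_8dcfde_an.Spec

/-!
# Elementary facts on the triangle waves
-/

set_option autoImplicit false

namespace Pool.Agent.Lib.MP_8dcfde_an

open MeasureTheory Set

namespace WaveAux

lemma kap_eq {s : ℝ} {k : ℤ} (h1 : 4 * (k : ℝ) - 2 ≤ s) (h2 : s < 4 * (k : ℝ) + 2) :
    kap s = 1 - |s - 4 * (k : ℝ)| := by
  have hr : round (s / 4) = k := by
    rw [round_eq, Int.floor_eq_iff]
    constructor <;> linarith
  unfold kap
  rw [hr]

lemma caseA {s : ℝ} {k : ℤ} (h1 : 4 * (k : ℝ) - 2 ≤ s) (h2 : s < 4 * (k : ℝ) - 1) :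
    kap s = s - 4 * (k : ℝ) + 1 ∧ tau s = 4 * (k : ℝ) - 2 - s := by
  constructor
  · rw [kap_eq (k := k) h1 (by linarith), abs_of_nonpos (by linarith)]
    ring
  · unfold tau
    rw [kap_eq (k := k - 1) (by push_cast; linarith) (by push_cast; linarith)]
    push_cast
    rw [abs_of_nonneg (by linarith)]
    ring

lemma caseB {s : ℝ} {k : ℤ} (h1 : 4 * (k : ℝ) - 1 ≤ s) (h2 : s < 4 * (k : ℝ)) :
    kap s = s - 4 * (k : ℝ) + 1 ∧ tau s = s - 4 * (k : ℝ) := by
  constructor
  · rw [kap_eq (k := k) (by linarith) (by linarith), abs_of_nonpos (by linarith)]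
    ring
  · unfold tau
    rw [kap_eq (k := k) (by linarith) (by linarith), abs_of_nonpos (by linarith)]
    ring

lemma caseC {s : ℝ} {k : ℤ} (h1 : 4 * (k : ℝ) ≤ s) (h2 : s < 4 * (k : ℝ) + 1) :
    kap s = 1 - (s - 4 * (k : ℝ)) ∧ tau s = s - 4 * (k : ℝ) := by
  constructor
  · rw [kap_eq (k := k) (by linarith) (by linarith), abs_of_nonneg (by linarith)]
  · unfold tau
    rw [kap_eq (k := k) (by linarith) (by linarith), abs_of_nonpos (by linarith)]
    ring

lemma caseD {s : ℝ} {k : ℤ} (h1 : 4 * (k : ℝ) + 1 ≤ s) (h2 : s < 4 * (k : ℝ) + 2) :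
    kap s = 1 - (s - 4 * (k : ℝ)) ∧ tau s = 2 - (s - 4 * (k : ℝ)) := by
  constructor
  · rw [kap_eq (k := k) (by linarith) (by linarith), abs_of_nonneg (by linarith)]
  · unfold tau
    rw [kap_eq (k := k) (by linarith) (by linarith), abs_of_nonneg (by linarith)]
    ring

lemma cases4 (s : ℝ) : ∃ k : ℤ, (4 * (k : ℝ) - 2 ≤ s ∧ s < 4 * (k : ℝ) - 1) ∨
    (4 * (k : ℝ) - 1 ≤ s ∧ s < 4 * (k : ℝ)) ∨ (4 * (k : ℝ) ≤ s ∧ s < 4 * (k : ℝ) + 1) ∨
    (4 * (k : ℝ) + 1 ≤ s ∧ s < 4 * (k : ℝ) + 2) := by
  refine ⟨⌊s / 4 + 1 / 2⌋, ?_⟩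
  have h1 := Int.floor_le (s / 4 + 1 / 2)
  have h2 := Int.lt_floor_add_one (s / 4 + 1 / 2)
  set k : ℝ := (⌊s / 4 + 1 / 2⌋ : ℝ) with hk
  rcases lt_or_ge s (4 * k - 1) with h | h
  · left; constructor <;> linarith
  · rcases lt_or_ge s (4 * k) with h' | h'
    · right; left; exact ⟨h, h'⟩
    · rcases lt_or_ge s (4 * k + 1) with h'' | h''
      · right; right; left; exact ⟨h', h''⟩
      · right; right; right; constructor <;> linarith

lemma kap_lip (s s' : ℝ) : |kap s - kap s'| ≤ |s - s'| := by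
  have key : ∀ a b : ℝ, |a - 4 * (round (a / 4) : ℝ)| ≤ |b - 4 * (round (b / 4) : ℝ)| + |a - b| := by
    intro a b
    have h1 := round_le (a / 4) (round (b / 4))
    have h2 : |a - 4 * (round (a / 4) : ℝ)| = 4 * |a / 4 - (round (a / 4) : ℝ)| := by
      rw [← abs_of_pos (show (0 : ℝ) < 4 by norm_num), ← abs_mul, abs_of_pos
        (show (0 : ℝ) < 4 by norm_num)]
      congr 1
      ring
    have h3 : |a - 4 * (round (b / 4) : ℝ)| = 4 * |a / 4 - (round (b / 4) : ℝ)| := by
      rw [← abs_of_pos (show (0 : ℝ) < 4 by norm_num), ← abs_mul, abs_of_pos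
        (show (0 : ℝ) < 4 by norm_num)]
      congr 1
      ring
    have h4 : |a - 4 * (round (b / 4) : ℝ)| ≤ |b - 4 * (round (b / 4) : ℝ)| + |a - b| := by
      have := abs_add_le (b - 4 * (round (b / 4) : ℝ)) (a - b)
      have he : (b - 4 * (round (b / 4) : ℝ)) + (a - b) = a - 4 * (round (b / 4) : ℝ) := by ring
      rwa [he] at this
    linarith
  have h1 := key s s'
  have h2 := key s' s
  rw [abs_sub_comm s' s] at h2
  unfold kap
  rw [abs_le]
  constructor <;> linarith

end WaveAux

open WaveAux in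
theorem wave : WaveSpec := by
  refine ⟨kap_lip, ?_, ?_, ?_, ?_, ?_⟩
  · intro s s'
    unfold tau
    have h := kap_lip (s - 1) (s' - 1)
    have he : s - 1 - (s' - 1) = s - s' := by ring
    rwa [he] at h
  · intro s
    obtain ⟨k, h | h | h | h⟩ := cases4 s
    · obtain ⟨h1, h2⟩ := caseA h.1 h.2
      rw [h1, h2, abs_of_nonpos (by linarith [h.2]), abs_of_nonpos (by linarith [h.1])]
      ring
    · obtain ⟨h1, h2⟩ := caseB h.1 h.2
      rw [h1, h2, abs_of_nonneg (by linarith [h.1]), abs_of_nonpos (by linarith [h.2])]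
      ring
    · obtain ⟨h1, h2⟩ := caseC h.1 h.2
      rw [h1, h2, abs_of_nonneg (by linarith [h.2]), abs_of_nonneg (by linarith [h.1])]
      ring
    · obtain ⟨h1, h2⟩ := caseD h.1 h.2
      rw [h1, h2, abs_of_nonpos (by linarith [h.1]), abs_of_nonneg (by linarith [h.2])]
      ring
  · have h := (caseC (s := 0) (k := 0) (by norm_num) (by norm_num)).1
    rw [h]
    norm_num
  · have h := (caseC (s := 0) (k := 0) (by norm_num) (by norm_num)).2
    rw [h]
    norm_num
  · intro s hs
    obtain ⟨k, h | h | h | h⟩ := cases4 s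
    · have hne : 4 * (k : ℝ) - 2 ≠ s := by
        have := hs (4 * k - 2)
        push_cast at this
        exact fun h => this h.symm
      have hlt : 4 * (k : ℝ) - 2 < s := lt_of_le_of_ne h.1 hne
      obtain ⟨h1, h2⟩ := caseA h.1 h.2
      have k0 : kap s < 0 := by rw [h1]; linarith [h.2]
      have t0 : tau s < 0 := by rw [h2]; linarith
      have hev : ∀ᶠ y in nhds s, kap y = y - 4 * (k : ℝ) + 1 ∧ tau y = 4 * (k : ℝ) - 2 - y := by
        filter_upwards [Ioo_mem_nhds hlt h.2] with y hy using caseA hy.1.le hy.2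
      refine ⟨k0.ne, t0.ne, ?_, ?_⟩
      · rw [sign_neg t0]
        have hd : HasDerivAt (fun y : ℝ => y - 4 * (k : ℝ) + 1) 1 s :=
          ((hasDerivAt_id s).sub_const _).add_const _
        have := hd.congr_of_eventuallyEq (hev.mono fun y hy => hy.1)
        simpa using this
      · rw [sign_neg k0]
        have hd : HasDerivAt (fun y : ℝ => 4 * (k : ℝ) - 2 - y) (-1) s :=
          (hasDerivAt_id s).const_sub _
        have := hd.congr_of_eventuallyEq (hev.mono fun y hy => hy.2)
        simpa using this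
    · have hne : 4 * (k : ℝ) - 1 ≠ s := by
        have := hs (4 * k - 1)
        push_cast at this
        exact fun h => this h.symm
      have hlt : 4 * (k : ℝ) - 1 < s := lt_of_le_of_ne h.1 hne
      obtain ⟨h1, h2⟩ := caseB h.1 h.2
      have k0 : 0 < kap s := by rw [h1]; linarith
      have t0 : tau s < 0 := by rw [h2]; linarith [h.2]
      have hev : ∀ᶠ y in nhds s, kap y = y - 4 * (k : ℝ) + 1 ∧ tau y = y - 4 * (k : ℝ) := by
        filter_upwards [Ioo_mem_nhds hlt h.2] with y hy using caseB hy.1.le hy.2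
      refine ⟨k0.ne', t0.ne, ?_, ?_⟩
      · rw [sign_neg t0]
        have hd : HasDerivAt (fun y : ℝ => y - 4 * (k : ℝ) + 1) 1 s :=
          ((hasDerivAt_id s).sub_const _).add_const _
        have := hd.congr_of_eventuallyEq (hev.mono fun y hy => hy.1)
        simpa using this
      · rw [sign_pos k0]
        have hd : HasDerivAt (fun y : ℝ => y - 4 * (k : ℝ)) 1 s :=
          (hasDerivAt_id s).sub_const _
        have := hd.congr_of_eventuallyEq (hev.mono fun y hy => hy.2)
        simpa using this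
    · have hne : 4 * (k : ℝ) ≠ s := by
        have := hs (4 * k)
        push_cast at this
        exact fun h => this h.symm
      have hlt : 4 * (k : ℝ) < s := lt_of_le_of_ne h.1 hne
      obtain ⟨h1, h2⟩ := caseC h.1 h.2
      have k0 : 0 < kap s := by rw [h1]; linarith [h.2]
      have t0 : 0 < tau s := by rw [h2]; linarith
      have hev : ∀ᶠ y in nhds s, kap y = 1 - (y - 4 * (k : ℝ)) ∧ tau y = y - 4 * (k : ℝ) := by
        filter_upwards [Ioo_mem_nhds hlt h.2] with y hy using caseC hy.1.le hy.2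
      refine ⟨k0.ne', t0.ne', ?_, ?_⟩
      · rw [sign_pos t0]
        have hd : HasDerivAt (fun y : ℝ => 1 - (y - 4 * (k : ℝ))) (-1) s :=
          ((hasDerivAt_id s).sub_const _).const_sub _
        have := hd.congr_of_eventuallyEq (hev.mono fun y hy => hy.1)
        simpa using this
      · rw [sign_pos k0]
        have hd : HasDerivAt (fun y : ℝ => y - 4 * (k : ℝ)) 1 s :=
          (hasDerivAt_id s).sub_const _
        have := hd.congr_of_eventuallyEq (hev.mono fun y hy => hy.2)
        simpa using this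
    · have hne : 4 * (k : ℝ) + 1 ≠ s := by
        have := hs (4 * k + 1)
        push_cast at this
        exact fun h => this h.symm
      have hlt : 4 * (k : ℝ) + 1 < s := lt_of_le_of_ne h.1 hne
      obtain ⟨h1, h2⟩ := caseD h.1 h.2
      have k0 : kap s < 0 := by rw [h1]; linarith
      have t0 : 0 < tau s := by rw [h2]; linarith [h.2]
      have hev : ∀ᶠ y in nhds s, kap y = 1 - (y - 4 * (k : ℝ)) ∧
          tau y = 2 - (y - 4 * (k : ℝ)) := by
        filter_upwards [Ioo_mem_nhds hlt h.2] with y hy using caseD hy.1.le hy.2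
      refine ⟨k0.ne, t0.ne', ?_, ?_⟩
      · rw [sign_pos t0]
        have hd : HasDerivAt (fun y : ℝ => 1 - (y - 4 * (k : ℝ))) (-1) s :=
          ((hasDerivAt_id s).sub_const _).const_sub _
        have := hd.congr_of_eventuallyEq (hev.mono fun y hy => hy.1)
        simpa using this
      · rw [sign_neg k0]
        have hd : HasDerivAt (fun y : ℝ => 2 - (y - 4 * (k : ℝ))) (-1) s :=
          ((hasDerivAt_id s).sub_const _).const_sub _
        have := hd.congr_of_eventuallyEq (hev.mono fun y hy => hy.2)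
        simpa using this

end Pool.Agent.Lib.MP_8dcfde_an
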