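import Pool.Agent.Lib.MP_8dcfde_an.Spec

/-!
# MP_8dcfde_an: Lipschitz maps satisfy the weak derivative identity
-/

set_option autoImplicit false

namespace Pool.Agent.Lib.MP_8dcfde_an

open MeasureTheory Set Filter Topology

namespace Weak

theorem global {g : E → E} {K : NNReal} (hg : LipschitzWith K g) {φ : E → ℝ}
    (hφ : ContDiff ℝ ((⊤ : ℕ∞) : WithTop ℕ∞) φ) (hc : HasCompactSupport φ) (v : E) :
    ∫ x, (fderiv ℝ φ x v) • g x = - ∫ x, φ x • (fderiv ℝ g x) v := by
  have hφd : Differentiable ℝ φ := hφ.differentiable (by simp)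
  have hφc : Continuous (fun x => fderiv ℝ φ x v) :=
    (hφ.continuous_fderiv (by simp)).clm_apply continuous_const
  have hφlip : ∃ D, LipschitzWith D φ :=
    ContDiff.lipschitzWith_of_hasCompactSupport hc hφ (by simp)
  obtain ⟨D, hD⟩ := hφlip
  -- integrability
  have hsupp : HasCompactSupport (fun x => fderiv ℝ φ x v) := by
    refine (hc.fderiv (𝕜 := ℝ)).comp_left (g := fun L : E →L[ℝ] ℝ => L v) ?_
    simp
  have hI1 : Integrable (fun x => (fderiv ℝ φ x v) • g x) := by
    refine (hφc.smul hg.continuous).integrable_of_hasCompactSupport ?_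
    exact hsupp.smul_right
  have hI2 : Integrable (fun x => φ x • (fderiv ℝ g x) v) := by
    have hb : Integrable (fun x => ‖φ x‖ * (K * ‖v‖)) :=
      ((hφ.continuous.integrable_of_hasCompactSupport hc).norm).mul_const _
    refine hb.mono' ?_ ?_
    · exact hφ.continuous.aestronglyMeasurable.smul
        (measurable_fderiv_apply_const ℝ g v).aestronglyMeasurable
    · refine Eventually.of_forall fun x => ?_
      rw [norm_smul]
      refine mul_le_mul_of_nonneg_left ?_ (norm_nonneg _)
      refine ((fderiv ℝ g x).le_opNorm v).trans ?_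
      exact mul_le_mul_of_nonneg_right (norm_fderiv_le_of_lipschitz ℝ hg) (norm_nonneg _)
  ext i
  have e1 : (∫ x, (fderiv ℝ φ x v) • g x) i = ∫ x, (fderiv ℝ φ x v) * g x i := by
    have := (EuclideanSpace.proj (𝕜 := ℝ) (ι := Fin 3) i).integral_comp_comm hI1
    simpa using this.symm
  have e2 : (∫ x, φ x • (fderiv ℝ g x) v) i = ∫ x, φ x * (fderiv ℝ g x v) i := by
    have := (EuclideanSpace.proj (𝕜 := ℝ) (ι := Fin 3) i).integral_comp_comm hI2
    simpa using this.symm
  rw [PiLp.neg_apply, e1, e2]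
  -- scalar identity
  have hgi : LipschitzWith K (fun x => g x i) := by
    refine LipschitzWith.of_dist_le_mul fun x y => ?_
    refine le_trans ?_ (hg.dist_le_mul x y)
    rw [dist_eq_norm, dist_eq_norm]
    exact PiLp.norm_apply_le (g x - g y) i
  have key := LipschitzWith.integral_lineDeriv_mul_eq (μ := (volume : Measure E)) hgi hD hc v
  have k1 : ∫ x, lineDeriv ℝ (fun x => g x i) x v * φ x =
      ∫ x, φ x * (fderiv ℝ g x v) i := by
    refine integral_congr_ae ?_
    filter_upwards [hg.ae_differentiableAt] with x hx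
    have h1 : HasFDerivAt (fun x => g x i)
        ((EuclideanSpace.proj (𝕜 := ℝ) (ι := Fin 3) i).comp (fderiv ℝ g x)) x :=
      (EuclideanSpace.proj (𝕜 := ℝ) (ι := Fin 3) i).hasFDerivAt.comp x hx.hasFDerivAt
    have h2 : lineDeriv ℝ (fun x => g x i) x v = (fderiv ℝ g x v) i := by
      rw [h1.differentiableAt.lineDeriv_eq_fderiv, h1.fderiv]
      rfl
    rw [h2, mul_comm]
  have k2 : ∫ x, lineDeriv ℝ φ x (-v) * g x i = - ∫ x, (fderiv ℝ φ x v) * g x i := by
    rw [← integral_neg]
    refine integral_congr_ae (Eventually.of_forall fun x => ?_)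
    simp only
    rw [(hφd x).lineDeriv_eq_fderiv, map_neg, neg_mul]
  rw [k1, k2] at key
  rw [key, neg_neg]

end Weak

theorem weak : WeakSpec := by
  intro Ω hΩ f C hf φ hφ hc hsub v
  obtain ⟨g, hg, hfg⟩ := hf.extend_finite_dimension
  have hzero : ∀ x, x ∉ Ω → φ x = 0 := fun x hx => by
    by_contra h
    exact hx (hsub (subset_tsupport φ h))
  have hzero' : ∀ x, x ∉ Ω → fderiv ℝ φ x = 0 := fun x hx => by
    have hx' : x ∉ tsupport φ := fun h => hx (hsub h)
    have h1 : φ =ᶠ[𝓝 x] fun _ => 0 := by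
      have := notMem_tsupport_iff_eventuallyEq.mp hx'
      exact this
    rw [h1.fderiv_eq]
    simp
  have hfd : ∀ x ∈ Ω, fderiv ℝ f x = fderiv ℝ g x := fun x hx => by
    have h1 : f =ᶠ[𝓝 x] g := by
      filter_upwards [hΩ.mem_nhds hx] with y hy
      exact hfg hy
    exact h1.fderiv_eq
  have e1 : ∫ x in Ω, (fderiv ℝ φ x v) • f x = ∫ x, (fderiv ℝ φ x v) • g x := by
    rw [setIntegral_congr_fun (g := fun x => (fderiv ℝ φ x v) • g x) hΩ.measurableSet
      (fun x hx => by simp only [hfg hx])]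
    exact setIntegral_eq_integral_of_forall_compl_eq_zero fun x hx => by simp [hzero' x hx]
  have e2 : ∫ x in Ω, φ x • (fderiv ℝ f x) v = ∫ x, φ x • (fderiv ℝ g x) v := by
    rw [setIntegral_congr_fun (g := fun x => φ x • (fderiv ℝ g x) v) hΩ.measurableSet
      (fun x hx => by simp only [hfd x hx])]
    exact setIntegral_eq_integral_of_forall_compl_eq_zero fun x hx => by simp [hzero x hx]
  rw [e1, e2]
  exact Weak.global hg hφ hc v

end Pool.Agent.Lib.MP_8dcfde_an
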